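import Mathlib
import Pool.Graph.R_pool_sql_team_seeded_35f281b4.K7.H55.MS.Tri

set_option autoImplicit false

/-!
# The comparison of two Fejér kernels

For two finite sets `A`, `B` of natural numbers, real numbers `φ 0, …, φ (N - 1)` and a real `τ`,
the sums of `ρ w(ρ (a + b + φ n - τ))` for `ρ = 2` and for a small `ρ` are compared by their
Fourier integrals.
-/

namespace Pool.Agent.H24.PS
open Finset MeasureTheory Complex
open Pool.Agent.K7.H74.WS (w W e w_cont w_nonneg w_le w_zero w_half W_cont W_nonneg W_le W_le2 W_int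
  e_cont norm_e e_add e_neg w_eq)
open Pool.Agent.K7.H55.MS (T T_cont T_le w_scale We_scale_int T_mean)

lemma W_neg (t : ℝ) : W (-t) = W t := by
  unfold W
  rw [mul_neg, Real.sinc_neg]

lemma W_abs (t : ℝ) : W |t| = W t := by
  rcases abs_choice t with h | h
  · rw [h]
  · rw [h, W_neg]

lemma one_sub_W_le (t : ℝ) : 1 - W t ≤ 4 * t ^ 2 := by
  have hpi := Real.pi_pos
  rcases eq_or_ne t 0 with h | h
  · rw [h]; unfold W; simp
  · rw [← W_abs]
    have ht : 0 < |t| := abs_pos.2 h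
    set x : ℝ := Real.pi * |t| with hx
    have hx0 : 0 < x := by positivity
    have h1 : 1 - x ^ 2 / 6 ≤ Real.sinc x := by
      rw [Real.sinc_of_ne_zero hx0.ne', le_div_iff₀ hx0]
      have := Real.sin_ge_sub_cube hx0.le
      nlinarith
    have h2 : 1 - x ^ 2 / 3 ≤ Real.sinc x ^ 2 := by
      nlinarith [sq_nonneg (Real.sinc x - 1)]
    have h3 : x ^ 2 / 3 ≤ 4 * t ^ 2 := by
      rw [hx, mul_pow, sq_abs]
      have h5 : Real.pi < 3.15 := Real.pi_lt_d2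
      have h6 : Real.pi ^ 2 ≤ 12 := by nlinarith
      nlinarith [sq_nonneg t]
    have h4 : W |t| = Real.sinc x ^ 2 := rfl
    rw [h4]
    linarith

/-- the exponential sum with the frequencies `φ n` -/
noncomputable def Gs (N : ℕ) (φ : ℕ → ℝ) (β : ℝ) : ℂ := ∑ n ∈ range N, e (β * φ n)

lemma Gs_cont (N : ℕ) (φ : ℕ → ℝ) : Continuous (Gs N φ) := by
  unfold Gs
  exact continuous_finsetSum _ fun n _ => e_cont.comp (by fun_prop)

lemma Gs_le (N : ℕ) (φ : ℕ → ℝ) (β : ℝ) : ‖Gs N φ β‖ ≤ N := by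
  unfold Gs
  refine (norm_sum_le _ _).trans ?_
  rw [sum_congr rfl (fun x _ => norm_e _), sum_const, nsmul_eq_mul, mul_one, card_range]

/-- the smoothed number of the solutions of `a + b + φ n = τ` -/
noncomputable def Sm (A B : Finset ℕ) (N : ℕ) (φ : ℕ → ℝ) (τ ρ : ℝ) : ℝ :=
  ∑ a ∈ A, ∑ b ∈ B, ∑ n ∈ range N, w (ρ * ((a : ℝ) + b + φ n - τ))

/-- the integrand without the kernel -/
noncomputable def Fi (A B : Finset ℕ) (N : ℕ) (φ : ℕ → ℝ) (τ β : ℝ) : ℂ :=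
  T A β * T B β * Gs N φ β * e (-(β * τ))

lemma Fi_cont (A B : Finset ℕ) (N : ℕ) (φ : ℕ → ℝ) (τ : ℝ) : Continuous (Fi A B N φ τ) := by
  unfold Fi
  exact (((T_cont A).mul (T_cont B)).mul (Gs_cont N φ)).mul (e_cont.comp (by fun_prop))

lemma Fi_norm (A B : Finset ℕ) (N : ℕ) (φ : ℕ → ℝ) (τ β : ℝ) :
    ‖Fi A B N φ τ β‖ = ‖T A β‖ * ‖T B β‖ * ‖Gs N φ β‖ := by
  unfold Fi
  rw [norm_mul, norm_mul, norm_mul, norm_e, mul_one]

lemma Fi_expand (A B : Finset ℕ) (N : ℕ) (φ : ℕ → ℝ) (τ ρ β : ℝ) :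
    (W (β / ρ) : ℂ) * Fi A B N φ τ β = ∑ a ∈ A, ∑ b ∈ B, ∑ n ∈ range N,
      (W (β / ρ) : ℂ) * e (β * ((a : ℝ) + b + φ n - τ)) := by
  have h0 : (W (β / ρ) : ℂ) * Fi A B N φ τ β =
      T A β * (T B β * (Gs N φ β * (e (-(β * τ)) * (W (β / ρ) : ℂ)))) := by
    unfold Fi
    ring
  rw [h0]
  unfold T Gs
  rw [sum_mul]
  refine sum_congr rfl fun a _ => ?_
  rw [sum_mul, mul_sum]
  refine sum_congr rfl fun b _ => ?_
  rw [sum_mul, mul_sum, mul_sum]
  refine sum_congr rfl fun n _ => ?_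
  have h1 : e (β * ((a : ℝ) + b + φ n - τ)) =
      e (β * (a : ℝ)) * e (β * (b : ℝ)) * e (β * φ n) * e (-(β * τ)) := by
    rw [← e_add, ← e_add, ← e_add]
    congr 1
    ring
  rw [h1]
  ring

theorem Sm_eq (A B : Finset ℕ) (N : ℕ) (φ : ℕ → ℝ) (τ : ℝ) {ρ : ℝ} (hρ : 0 < ρ) :
    ∫ β : ℝ, (W (β / ρ) : ℂ) * Fi A B N φ τ β = ((ρ * Sm A B N φ τ ρ : ℝ) : ℂ) := by
  simp_rw [Fi_expand]
  rw [integral_finsetSum _ fun a _ => integrable_finsetSum _ fun b _ =>
    integrable_finsetSum _ fun n _ => We_scale_int hρ _]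
  unfold Sm
  push_cast
  rw [mul_sum]
  refine sum_congr rfl fun a _ => ?_
  rw [integral_finsetSum _ fun b _ => integrable_finsetSum _ fun n _ => We_scale_int hρ _, mul_sum]
  refine sum_congr rfl fun b _ => ?_
  rw [integral_finsetSum _ fun n _ => We_scale_int hρ _, mul_sum]
  refine sum_congr rfl fun n _ => ?_
  exact w_scale hρ _

end Pool.Agent.H24.PS
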