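import Mathlib
import Pool.Agent.H24.PS.Ker

set_option autoImplicit false

/-!
# The comparison theorem: integrals of the majorants
-/

namespace Pool.Agent.H24.PS
open Finset MeasureTheory Complex
open Pool.Agent.K7.H74.WS (w W e w_cont w_nonneg w_le w_zero w_half W_cont W_nonneg W_le W_le2 W_int
  e_cont norm_e e_add e_neg w_eq)
open Pool.Agent.K7.H55.MS (T T_cont T_le w_scale We_scale_int T_mean)

lemma int_cauchy {ξ : ℝ} (hξ : 0 < ξ) : ∫ β : ℝ, (1 + (β / ξ) ^ 2)⁻¹ = Real.pi * ξ := by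
  have h1 := Measure.integral_comp_div (fun γ : ℝ => (1 + γ ^ 2)⁻¹) ξ
  rw [h1, integral_univ_inv_one_add_sq, abs_of_pos hξ, smul_eq_mul]
  ring

lemma integrable_cauchy {ξ : ℝ} (hξ : 0 < ξ) : Integrable fun β : ℝ => (1 + (β / ξ) ^ 2)⁻¹ :=
  integrable_inv_one_add_sq.comp_div hξ.ne'

lemma WT_int (A : Finset ℕ) {ρ : ℝ} (hρ : 0 < ρ) :
    Integrable fun β : ℝ => W (β / ρ) * ‖T A β‖ ^ 2 := by
  refine ((W_int.comp_div hρ.ne').mul_const ((A.card : ℝ) ^ 2)).mono' ?_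
    (Filter.Eventually.of_forall fun β => ?_)
  · exact ((W_cont.comp (by fun_prop)).mul ((T_cont A).norm.pow 2)).aestronglyMeasurable
  · have h1 := W_nonneg (β / ρ)
    have h2 := T_le A β
    have h3 := norm_nonneg (T A β)
    rw [Real.norm_of_nonneg (by positivity)]
    gcongr

lemma T_mean' (A : Finset ℕ) {ρ : ℝ} (hρ : 0 < ρ) :
    ∫ β : ℝ, W (β / ρ) * ‖T A β‖ ^ 2 = ρ * ∑ a ∈ A, ∑ b ∈ A, w (ρ * ((a : ℝ) - b)) := by
  have h := T_mean A hρ 1
  simp only [div_one] at h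
  exact h

lemma WF_int (A B : Finset ℕ) (N : ℕ) (φ : ℕ → ℝ) (τ : ℝ) {ρ : ℝ} (hρ : 0 < ρ) :
    Integrable fun β : ℝ => (W (β / ρ) : ℂ) * Fi A B N φ τ β := by
  refine ((W_int.comp_div hρ.ne').mul_const ((A.card : ℝ) * B.card * N)).mono' ?_
    (Filter.Eventually.of_forall fun β => ?_)
  · exact ((continuous_ofReal.comp (W_cont.comp (by fun_prop))).mul
      (Fi_cont A B N φ τ)).aestronglyMeasurable
  · have h1 := W_nonneg (β / ρ)
    rw [norm_mul, Fi_norm, Complex.norm_of_nonneg h1]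
    have := T_le A β
    have := T_le B β
    have := Gs_le N φ β
    gcongr

end Pool.Agent.H24.PS
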