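import Mathlib
import Pool.Agent.H24.PS.Cmp

set_option autoImplicit false

/-!
# The comparison of the kernels, with dyadic pieces
-/

namespace Pool.Agent.H24.PS
open Finset MeasureTheory Complex
open Pool.Agent.K7.H74.WS (w W e w_cont w_nonneg w_le w_zero w_half W_cont W_nonneg W_le W_le2 W_int
  e_cont norm_e e_add e_neg w_eq)
open Pool.Agent.K7.H55.MS (T T_cont T_le w_scale We_scale_int T_mean W_half)

lemma T_big (A : Finset ℕ) {ρ : ℝ} (hρ : 1 ≤ ρ) :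
    ∫ β : ℝ, W (β / ρ) * ‖T A β‖ ^ 2 = ρ * A.card := by
  rw [T_mean' A (by linarith)]
  congr 1
  have h2 : ∀ a ∈ A, ∑ b ∈ A, w (ρ * ((a : ℝ) - b)) = 1 := by
    intro a ha
    rw [sum_eq_single a]
    · rw [sub_self, mul_zero]
      unfold w; simp
    · intro b _ hb
      apply w_zero
      rw [abs_mul, abs_of_pos (by linarith : (0 : ℝ) < ρ)]
      have h3 : (1 : ℤ) ≤ |(a : ℤ) - b| := Int.one_le_abs (by omega)
      have h4 : (1 : ℝ) ≤ |(a : ℝ) - b| := by exact_mod_cast h3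
      nlinarith
    · intro h
      exact (h ha).elim
  rw [sum_congr rfl h2]
  simp

lemma TT_int (A B : Finset ℕ) {ρ : ℝ} (hρ : 0 < ρ) :
    Integrable fun β : ℝ => W (β / ρ) * (‖T A β‖ * ‖T B β‖) := by
  refine ((W_int.comp_div hρ.ne').mul_const ((A.card : ℝ) * B.card)).mono' ?_
    (Filter.Eventually.of_forall fun β => ?_)
  · exact ((W_cont.comp (by fun_prop)).mul ((T_cont A).norm.mul (T_cont B).norm)).aestronglyMeasurable
  · have h1 := W_nonneg (β / ρ)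
    have h2 := T_le A β
    have h3 := norm_nonneg (T A β)
    have h4 := T_le B β
    have h5 := norm_nonneg (T B β)
    rw [Real.norm_of_nonneg (by positivity)]
    gcongr

/-- the mixed mean value -/
lemma TT_le (A B : Finset ℕ) {ρ : ℝ} (hρ : 1 ≤ ρ) :
    ∫ β : ℝ, W (β / ρ) * (‖T A β‖ * ‖T B β‖) ≤ ρ * Real.sqrt ((A.card : ℝ) * B.card) := by
  have hρ0 : 0 < ρ := by linarith
  rcases Nat.eq_zero_or_pos A.card with hA | hA
  · have : ∀ β : ℝ, W (β / ρ) * (‖T A β‖ * ‖T B β‖) = 0 := by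
      intro β
      rw [Finset.card_eq_zero] at hA
      subst hA
      unfold T
      simp
    simp_rw [this]
    simp only [integral_zero]
    positivity
  rcases Nat.eq_zero_or_pos B.card with hB | hB
  · have : ∀ β : ℝ, W (β / ρ) * (‖T A β‖ * ‖T B β‖) = 0 := by
      intro β
      rw [Finset.card_eq_zero] at hB
      subst hB
      unfold T
      simp
    simp_rw [this]
    simp only [integral_zero]
    positivity
  have hA0 : (0 : ℝ) < A.card := by exact_mod_cast hA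
  have hB0 : (0 : ℝ) < B.card := by exact_mod_cast hB
  set s : ℝ := Real.sqrt ((A.card : ℝ) * B.card) with hs
  set l : ℝ := Real.sqrt B.card / Real.sqrt A.card with hl
  have hsA : 0 < Real.sqrt A.card := Real.sqrt_pos.2 hA0
  have hsB : 0 < Real.sqrt B.card := Real.sqrt_pos.2 hB0
  have hl0 : 0 < l := by positivity
  have hsAB : s = Real.sqrt A.card * Real.sqrt B.card := by
    rw [hs, Real.sqrt_mul hA0.le]
  have hAA : Real.sqrt A.card * Real.sqrt A.card = A.card := Real.mul_self_sqrt hA0.le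
  have hBB : Real.sqrt B.card * Real.sqrt B.card = B.card := Real.mul_self_sqrt hB0.le
  have hl1 : l * A.card = s := by
    rw [hl, hsAB]
    nth_rewrite 2 [← hAA]
    field_simp
  have hl2 : 1 / l * B.card = s := by
    rw [hl, hsAB]
    nth_rewrite 2 [← hBB]
    field_simp
  have i1 := WT_int A hρ0
  have i2 := WT_int B hρ0
  have h1 : ∫ β : ℝ, W (β / ρ) * (‖T A β‖ * ‖T B β‖) ≤
      ∫ β : ℝ, (l / 2 * (W (β / ρ) * ‖T A β‖ ^ 2) + 1 / (2 * l) * (W (β / ρ) * ‖T B β‖ ^ 2)) := by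
    apply integral_mono (TT_int A B hρ0) ((i1.const_mul _).add (i2.const_mul _))
    intro β
    have h5 : ‖T A β‖ * ‖T B β‖ ≤ l / 2 * ‖T A β‖ ^ 2 + 1 / (2 * l) * ‖T B β‖ ^ 2 := by
      have h6 : 0 ≤ 1 / (2 * l) * (l * ‖T A β‖ - ‖T B β‖) ^ 2 := by positivity
      have h7 : 1 / (2 * l) * (l * ‖T A β‖ - ‖T B β‖) ^ 2 =
          l / 2 * ‖T A β‖ ^ 2 + 1 / (2 * l) * ‖T B β‖ ^ 2 - ‖T A β‖ * ‖T B β‖ := by
        field_simp
        ring
      linarith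
    have h8 := mul_le_mul_of_nonneg_left h5 (W_nonneg (β / ρ))
    simp only [Pi.add_apply]
    calc _ ≤ _ := h8
      _ = _ := by ring
  have h2 : ∫ β : ℝ, (l / 2 * (W (β / ρ) * ‖T A β‖ ^ 2) + 1 / (2 * l) * (W (β / ρ) * ‖T B β‖ ^ 2)) =
      l / 2 * (ρ * A.card) + 1 / (2 * l) * (ρ * B.card) := by
    have e1 : ∫ β : ℝ, (l / 2 * (W (β / ρ) * ‖T A β‖ ^ 2) + 1 / (2 * l) * (W (β / ρ) * ‖T B β‖ ^ 2)) =
        (∫ β : ℝ, l / 2 * (W (β / ρ) * ‖T A β‖ ^ 2)) +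
          ∫ β : ℝ, 1 / (2 * l) * (W (β / ρ) * ‖T B β‖ ^ 2) :=
      integral_add (i1.const_mul _) (i2.const_mul _)
    rw [e1, integral_const_mul, integral_const_mul, T_big A hρ, T_big B hρ]
  rw [h2] at h1
  refine h1.trans (le_of_eq ?_)
  have e1 : l / 2 * (ρ * A.card) = ρ / 2 * (l * A.card) := by ring
  have e2 : 1 / (2 * l) * (ρ * B.card) = ρ / 2 * (1 / l * B.card) := by
    field_simp
  rw [e1, e2, hl1, hl2]
  ring

/-- the majorant of the difference of the two kernels times the exponential sum -/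
lemma pointwise2 (N : ℕ) (φ : ℕ → ℝ) {ρ ξ0 R : ℝ} (hρ : 0 < ρ) (hρ1 : ρ ≤ 1) (h0 : 0 < ξ0)
    (hR : 0 ≤ R) (J : ℕ)
    (hG : ∀ (j : ℕ) (β : ℝ), ξ0 ≤ |β| → |β| ≤ 4 ^ j → ‖Gs N φ β‖ ≤ R * 2 ^ j) (β : ℝ) :
    |W (β / 2) - W (β / ρ)| * ‖Gs N φ β‖ ≤
      8 * (ξ0 / ρ) ^ 2 * N * (1 + (β / ξ0) ^ 2)⁻¹ +
      20 / ((4 : ℝ) ^ J) ^ 2 * N * (1 + (β / 4 ^ J) ^ 2)⁻¹ +
      ∑ j ∈ range (J + 1), 400 * (1 / 8) ^ j * R * W (β / (2 * 4 ^ j)) := by
  have hN := Gs_le N φ β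
  have hN0 := norm_nonneg (Gs N φ β)
  have hW1 := W_nonneg (β / 2)
  have hW2 := W_nonneg (β / ρ)
  have hW3 := W_le (β / 2)
  have hW4 := W_le (β / ρ)
  have t1 : 0 ≤ 8 * (ξ0 / ρ) ^ 2 * N * (1 + (β / ξ0) ^ 2)⁻¹ := by positivity
  have t3 : 0 ≤ 20 / ((4 : ℝ) ^ J) ^ 2 * N * (1 + (β / 4 ^ J) ^ 2)⁻¹ := by positivity
  have t2 : ∀ j ∈ range (J + 1), 0 ≤ 400 * (1 / 8) ^ j * R * W (β / (2 * 4 ^ j)) := by
    intro j _
    have := W_nonneg (β / (2 * 4 ^ j))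
    positivity
  have t2' := sum_nonneg t2
  rcases le_or_gt |β| ξ0 with hb | hb
  · have h2 : |W (β / 2) - W (β / ρ)| ≤ 4 * (ξ0 / ρ) ^ 2 := by
      have e1 := one_sub_W_le (β / 2)
      have e2 := one_sub_W_le (β / ρ)
      have e3 : (β / ρ) ^ 2 ≤ (ξ0 / ρ) ^ 2 := by
        rw [← sq_abs (β / ρ), abs_div, abs_of_pos hρ]
        gcongr
      have e4 : (β / 2) ^ 2 ≤ (ξ0 / ρ) ^ 2 := by
        rw [← sq_abs (β / 2), abs_div, abs_of_pos (by norm_num : (0 : ℝ) < 2)]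
        have : |β| / 2 ≤ ξ0 / ρ := by
          rw [div_le_div_iff₀ (by norm_num) hρ]
          nlinarith [abs_nonneg β]
        exact pow_le_pow_left₀ (by positivity) this 2
      rw [abs_le]
      constructor <;> linarith
    have h3 : (1 / 2 : ℝ) ≤ (1 + (β / ξ0) ^ 2)⁻¹ := by
      rw [one_div]
      apply inv_anti₀ (by positivity)
      have : (β / ξ0) ^ 2 ≤ 1 := by
        rw [← sq_abs, abs_div, abs_of_pos h0]
        have h4 : |β| / ξ0 ≤ 1 := by rw [div_le_one h0]; exact hb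
        have h5 : 0 ≤ |β| / ξ0 := by positivity
        nlinarith
      linarith
    have h4 : |W (β / 2) - W (β / ρ)| * ‖Gs N φ β‖ ≤
        8 * (ξ0 / ρ) ^ 2 * N * (1 + (β / ξ0) ^ 2)⁻¹ := by
      calc |W (β / 2) - W (β / ρ)| * ‖Gs N φ β‖
          ≤ 4 * (ξ0 / ρ) ^ 2 * N := by gcongr
        _ = 8 * (ξ0 / ρ) ^ 2 * N * (1 / 2) := by ring
        _ ≤ _ := by gcongr
    linarith
  · have hWW : |W (β / 2) - W (β / ρ)| ≤ W (β / 2) + W (β / ρ) := by
      rw [abs_le]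
      constructor <;> linarith
    have hW10 : 0 < |β| → W (β / 2) + W (β / ρ) ≤ 10 / β ^ 2 := by
      intro hβ0
      have hβ2 : 0 < β ^ 2 := by rw [← sq_abs]; positivity
      have h6 : W (β / 2) ≤ 8 / β ^ 2 := by
        refine (W_le2 _).trans ?_
        rw [← div_eq_mul_inv, div_le_div_iff₀ (by positivity) hβ2, div_pow]
        nlinarith
      have h7 : W (β / ρ) ≤ 2 / β ^ 2 := by
        refine (W_le2 _).trans ?_
        rw [← div_eq_mul_inv, div_le_div_iff₀ (by positivity) hβ2, div_pow]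
        have h8 : β ^ 2 ≤ β ^ 2 / ρ ^ 2 := by
          rw [le_div_iff₀ (by positivity)]
          have : ρ ^ 2 ≤ 1 := by nlinarith
          nlinarith
        linarith
      calc W (β / 2) + W (β / ρ) ≤ 8 / β ^ 2 + 2 / β ^ 2 := add_le_add h6 h7
        _ = 10 / β ^ 2 := by ring
    rcases le_or_gt |β| (4 ^ J) with hb1 | hb1
    · -- a dyadic piece
      have hex : ∃ j, |β| ≤ (4 : ℝ) ^ j := ⟨J, hb1⟩
      classical
      set j := Nat.find hex with hj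
      have hj1 : |β| ≤ (4 : ℝ) ^ j := Nat.find_spec hex
      have hjJ : j ≤ J := Nat.find_min' hex hb1
      have hG1 := hG j β hb.le hj1
      have hWj : 2 / 5 ≤ W (β / (2 * 4 ^ j)) := by
        apply W_half
        rw [abs_div, abs_of_pos (by positivity : (0 : ℝ) < 2 * 4 ^ j), div_le_iff₀ (by positivity)]
        linarith
      have hker : |W (β / 2) - W (β / ρ)| ≤ 160 * (1 / 16) ^ j := by
        rcases Nat.eq_zero_or_pos j with hj0 | hj0
        · rw [hj0, pow_zero]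
          refine hWW.trans ?_
          linarith
        · have hj2 : ¬ |β| ≤ (4 : ℝ) ^ (j - 1) := Nat.find_min hex (by omega)
          push Not at hj2
          have hβ0 : 0 < |β| := lt_trans (by positivity) hj2
          refine hWW.trans ((hW10 hβ0).trans ?_)
          rw [← sq_abs]
          have h5 : ((4 : ℝ) ^ (j - 1)) ^ 2 ≤ |β| ^ 2 := by gcongr
          have h6 : (16 : ℝ) * ((4 : ℝ) ^ (j - 1)) ^ 2 = 16 ^ j := by
            rw [← pow_mul, mul_comm (j - 1) 2, pow_mul]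
            norm_num
            rw [← pow_succ']
            congr 1
            omega
          calc 10 / |β| ^ 2 ≤ 10 / ((4 : ℝ) ^ (j - 1)) ^ 2 := by gcongr
            _ = 160 / (16 * ((4 : ℝ) ^ (j - 1)) ^ 2) := by
                field_simp
                norm_num
            _ = 160 * (1 / 16) ^ j := by
                rw [h6, one_div, inv_pow]
                ring
      have h7 := single_le_sum t2 (mem_range.2 (by omega : j < J + 1))
      have h8 : |W (β / 2) - W (β / ρ)| * ‖Gs N φ β‖ ≤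
          400 * (1 / 8) ^ j * R * W (β / (2 * 4 ^ j)) := by
        calc |W (β / 2) - W (β / ρ)| * ‖Gs N φ β‖
            ≤ 160 * (1 / 16) ^ j * (R * 2 ^ j) := by gcongr
          _ = 400 * (1 / 8) ^ j * R * (2 / 5) := by
              have : ((1 : ℝ) / 8) ^ j = (1 / 16) ^ j * 2 ^ j := by
                rw [← mul_pow]
                norm_num
              rw [this]
              ring
          _ ≤ _ := by gcongr
      linarith
    · have hJ0 : (0 : ℝ) < 4 ^ J := by positivity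
      have hβ0 : 0 < |β| := hJ0.trans hb1
      have hβ2 : 0 < β ^ 2 := by rw [← sq_abs]; positivity
      have h9 : 10 / β ^ 2 ≤ 20 / ((4 : ℝ) ^ J) ^ 2 * (1 + (β / 4 ^ J) ^ 2)⁻¹ := by
        rw [← div_eq_mul_inv, div_div, div_pow, div_le_div_iff₀ hβ2 (by positivity)]
        have h10 : ((4 : ℝ) ^ J) ^ 2 * (1 + β ^ 2 / ((4 : ℝ) ^ J) ^ 2) = ((4 : ℝ) ^ J) ^ 2 + β ^ 2 := by
          field_simp
        rw [h10]
        have h11 : ((4 : ℝ) ^ J) ^ 2 ≤ β ^ 2 := by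
          rw [← sq_abs β]
          exact pow_le_pow_left₀ hJ0.le hb1.le 2
        linarith
      have h4 : |W (β / 2) - W (β / ρ)| * ‖Gs N φ β‖ ≤
          20 / ((4 : ℝ) ^ J) ^ 2 * N * (1 + (β / 4 ^ J) ^ 2)⁻¹ := by
        calc |W (β / 2) - W (β / ρ)| * ‖Gs N φ β‖
            ≤ (20 / ((4 : ℝ) ^ J) ^ 2 * (1 + (β / 4 ^ J) ^ 2)⁻¹) * N := by
              have := hWW.trans ((hW10 hβ0).trans h9)
              gcongr
          _ = _ := by ring
      linarith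

/-- the comparison of the two smoothed numbers of solutions -/
theorem compare2 (A B : Finset ℕ) (N : ℕ) (φ : ℕ → ℝ) (τ : ℝ) {ρ ξ0 R : ℝ} (hρ : 0 < ρ)
    (hρ1 : ρ ≤ 1) (h0 : 0 < ξ0) (hR : 0 ≤ R) (J : ℕ)
    (hG : ∀ (j : ℕ) (β : ℝ), ξ0 ≤ |β| → |β| ≤ 4 ^ j → ‖Gs N φ β‖ ≤ R * 2 ^ j) :
    ρ * Sm A B N φ τ ρ ≤ 2 * Sm A B N φ τ 2 +
      (8 * (ξ0 / ρ) ^ 2 * N * (A.card * B.card) * (Real.pi * ξ0) +
      20 / ((4 : ℝ) ^ J) ^ 2 * N * (A.card * B.card) * (Real.pi * 4 ^ J) +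
      1600 * R * Real.sqrt ((A.card : ℝ) * B.card)) := by
  have hJ0 : (0 : ℝ) < 4 ^ J := by positivity
  have i5 := integrable_cauchy h0
  have i6 := integrable_cauchy hJ0
  have i7 : ∀ j : ℕ, Integrable fun β : ℝ => W (β / (2 * 4 ^ j)) * (‖T A β‖ * ‖T B β‖) :=
    fun j => TT_int A B (by positivity)
  have e1 : ((ρ * Sm A B N φ τ ρ - 2 * Sm A B N φ τ 2 : ℝ) : ℂ) =
      ∫ β : ℝ, ((W (β / ρ) - W (β / 2) : ℝ) : ℂ) * Fi A B N φ τ β := by
    rw [ofReal_sub, ← Sm_eq A B N φ τ hρ, ← Sm_eq A B N φ τ two_pos,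
      ← integral_sub (WF_int A B N φ τ hρ) (WF_int A B N φ τ two_pos)]
    congr 1
    ext β
    push_cast
    ring
  have e2 : ρ * Sm A B N φ τ ρ - 2 * Sm A B N φ τ 2 ≤
      ∫ β : ℝ, |W (β / 2) - W (β / ρ)| * ‖Gs N φ β‖ * (‖T A β‖ * ‖T B β‖) := by
    calc ρ * Sm A B N φ τ ρ - 2 * Sm A B N φ τ 2
        ≤ ‖((ρ * Sm A B N φ τ ρ - 2 * Sm A B N φ τ 2 : ℝ) : ℂ)‖ := by
          rw [Complex.norm_real]
          exact le_abs_self _
      _ ≤ ∫ β : ℝ, ‖((W (β / ρ) - W (β / 2) : ℝ) : ℂ) * Fi A B N φ τ β‖ := by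
          rw [e1]
          exact norm_integral_le_integral_norm _
      _ = _ := by
          congr 1
          ext β
          rw [norm_mul, Fi_norm, Complex.norm_real, Real.norm_eq_abs, abs_sub_comm]
          ring
  set g : ℝ → ℝ := fun β => (8 * (ξ0 / ρ) ^ 2 * N * (A.card * B.card) * (1 + (β / ξ0) ^ 2)⁻¹ +
      20 / ((4 : ℝ) ^ J) ^ 2 * N * (A.card * B.card) * (1 + (β / 4 ^ J) ^ 2)⁻¹) +
      ∑ j ∈ range (J + 1), 400 * (1 / 8) ^ j * R *
        (W (β / (2 * 4 ^ j)) * (‖T A β‖ * ‖T B β‖)) with hg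
  have j1 : Integrable fun β : ℝ => 8 * (ξ0 / ρ) ^ 2 * N * (A.card * B.card) *
      (1 + (β / ξ0) ^ 2)⁻¹ := i5.const_mul _
  have j2 : Integrable fun β : ℝ => 20 / ((4 : ℝ) ^ J) ^ 2 * N * (A.card * B.card) *
      (1 + (β / 4 ^ J) ^ 2)⁻¹ := i6.const_mul _
  have j3 : ∀ j ∈ range (J + 1), Integrable fun β : ℝ => 400 * (1 / 8) ^ j * R *
        (W (β / (2 * 4 ^ j)) * (‖T A β‖ * ‖T B β‖)) := fun j _ => (i7 j).const_mul _
  have j4 : Integrable fun β : ℝ => 8 * (ξ0 / ρ) ^ 2 * N * (A.card * B.card) *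
      (1 + (β / ξ0) ^ 2)⁻¹ + 20 / ((4 : ℝ) ^ J) ^ 2 * N * (A.card * B.card) *
      (1 + (β / 4 ^ J) ^ 2)⁻¹ := j1.add j2
  have j5 : Integrable fun β : ℝ => ∑ j ∈ range (J + 1), 400 * (1 / 8) ^ j * R *
        (W (β / (2 * 4 ^ j)) * (‖T A β‖ * ‖T B β‖)) := integrable_finsetSum _ j3
  have hgi : Integrable g := j4.add j5
  have e3 : ∫ β : ℝ, |W (β / 2) - W (β / ρ)| * ‖Gs N φ β‖ * (‖T A β‖ * ‖T B β‖) ≤ ∫ β, g β := by
    refine integral_mono_of_nonneg (Filter.Eventually.of_forall fun β => by positivity) hgi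
      (Filter.Eventually.of_forall fun β => ?_)
    have h1 := pointwise2 N φ hρ hρ1 h0 hR J hG β
    have hA := T_le A β
    have hB := T_le B β
    have hA0 := norm_nonneg (T A β)
    have hB0 := norm_nonneg (T B β)
    have hAB : ‖T A β‖ * ‖T B β‖ ≤ A.card * B.card := by gcongr
    have h2 := mul_le_mul_of_nonneg_right h1 (by positivity : 0 ≤ ‖T A β‖ * ‖T B β‖)
    refine h2.trans ?_
    simp only [hg]
    rw [add_mul, sum_mul]
    refine add_le_add ?_ (le_of_eq (sum_congr rfl fun j _ => by ring))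
    calc (8 * (ξ0 / ρ) ^ 2 * N * (1 + (β / ξ0) ^ 2)⁻¹ +
          20 / ((4 : ℝ) ^ J) ^ 2 * N * (1 + (β / 4 ^ J) ^ 2)⁻¹) * (‖T A β‖ * ‖T B β‖)
        ≤ (8 * (ξ0 / ρ) ^ 2 * N * (1 + (β / ξ0) ^ 2)⁻¹ +
          20 / ((4 : ℝ) ^ J) ^ 2 * N * (1 + (β / 4 ^ J) ^ 2)⁻¹) * (A.card * B.card) := by gcongr
      _ = _ := by ring
  have e4 : ∫ β, g β = (8 * (ξ0 / ρ) ^ 2 * N * (A.card * B.card) * (Real.pi * ξ0) +
      20 / ((4 : ℝ) ^ J) ^ 2 * N * (A.card * B.card) * (Real.pi * 4 ^ J)) +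
      ∑ j ∈ range (J + 1), 400 * (1 / 8) ^ j * R *
        ∫ β : ℝ, W (β / (2 * 4 ^ j)) * (‖T A β‖ * ‖T B β‖) := by
    have k1 : ∫ β, g β = (∫ β : ℝ, (8 * (ξ0 / ρ) ^ 2 * N * (A.card * B.card) *
      (1 + (β / ξ0) ^ 2)⁻¹ + 20 / ((4 : ℝ) ^ J) ^ 2 * N * (A.card * B.card) *
      (1 + (β / 4 ^ J) ^ 2)⁻¹)) + ∫ β : ℝ, ∑ j ∈ range (J + 1), 400 * (1 / 8) ^ j * R *
        (W (β / (2 * 4 ^ j)) * (‖T A β‖ * ‖T B β‖)) := integral_add j4 j5
    have k2 : ∫ β : ℝ, (8 * (ξ0 / ρ) ^ 2 * N * (A.card * B.card) *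
      (1 + (β / ξ0) ^ 2)⁻¹ + 20 / ((4 : ℝ) ^ J) ^ 2 * N * (A.card * B.card) *
      (1 + (β / 4 ^ J) ^ 2)⁻¹) = (∫ β : ℝ, 8 * (ξ0 / ρ) ^ 2 * N * (A.card * B.card) *
      (1 + (β / ξ0) ^ 2)⁻¹) + ∫ β : ℝ, 20 / ((4 : ℝ) ^ J) ^ 2 * N * (A.card * B.card) *
      (1 + (β / 4 ^ J) ^ 2)⁻¹ := integral_add j1 j2
    rw [k1, k2, integral_finsetSum _ j3, integral_const_mul, integral_const_mul, int_cauchy h0,
      int_cauchy hJ0]
    congr 1
    refine sum_congr rfl fun j _ => ?_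
    rw [integral_const_mul]
  have e5 : ∑ j ∈ range (J + 1), 400 * (1 / 8) ^ j * R *
        ∫ β : ℝ, W (β / (2 * 4 ^ j)) * (‖T A β‖ * ‖T B β‖) ≤
      1600 * R * Real.sqrt ((A.card : ℝ) * B.card) := by
    have k1 : ∀ j ∈ range (J + 1), 400 * (1 / 8) ^ j * R *
        ∫ β : ℝ, W (β / (2 * 4 ^ j)) * (‖T A β‖ * ‖T B β‖) ≤
        800 * R * Real.sqrt ((A.card : ℝ) * B.card) * (1 / 2) ^ j := by
      intro j _
      have h4 : (1 : ℝ) ≤ 4 ^ j := one_le_pow₀ (by norm_num)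
      have h5 := TT_le A B (ρ := 2 * 4 ^ j) (by linarith)
      calc 400 * (1 / 8) ^ j * R * ∫ β : ℝ, W (β / (2 * 4 ^ j)) * (‖T A β‖ * ‖T B β‖)
          ≤ 400 * (1 / 8) ^ j * R * ((2 * 4 ^ j) * Real.sqrt ((A.card : ℝ) * B.card)) := by gcongr
        _ = 800 * R * Real.sqrt ((A.card : ℝ) * B.card) * ((1 / 8) ^ j * 4 ^ j) := by ring
        _ = _ := by
            rw [← mul_pow]
            norm_num
    refine (sum_le_sum k1).trans ?_
    rw [← mul_sum]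
    have k2 : ∑ j ∈ range (J + 1), (1 / 2 : ℝ) ^ j ≤ 2 := by
      have := geom_sum_eq (x := (1 / 2 : ℝ)) (by norm_num) (J + 1)
      rw [this]
      have h6 : 0 < (1 / 2 : ℝ) ^ (J + 1) := by positivity
      rw [div_le_iff_of_neg (by norm_num)]
      linarith
    calc 800 * R * Real.sqrt ((A.card : ℝ) * B.card) * ∑ j ∈ range (J + 1), (1 / 2 : ℝ) ^ j
        ≤ 800 * R * Real.sqrt ((A.card : ℝ) * B.card) * 2 := by gcongr
      _ = _ := by ring
  linarith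

end Pool.Agent.H24.PS
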