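import Pool.Graph.R_seed8.Y933.KD.VdC2

/-!
# Exponential sums with the powers `n ^ c`: an explicit saving

The bound of the library module `Y933.KD.VdC2` with its exponent written out.
-/

set_option autoImplicit false

namespace Pool.Agent.H24.PS

open Finset Real Filter
open Pool.Agent.H469R2.NK (e norm_e e_add norm_sum_neg Cq Cq_pos)
open Pool.Agent.TH915.PW (Hy)
open Pool.Agent.Y933.KD.VdC

theorem core_expl {c : ℝ} (hc : ∀ m : ℕ, c ≠ m) (K : ℕ) (hK0 : 1 ≤ K) (hK : c < K + 1) (μ : ℝ)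
    (hμ : 0 < μ) (hμ1 : μ ≤ 1 / 4) :
    ∃ M0 : ℕ, ∀ M : ℕ, M0 ≤ M → ∀ (X Y f u : ℝ) (L : ℕ),
      L ≤ M → 0 < X → X ≤ u → u + L ≤ Y → Y ≤ X * (M : ℝ) ^ (μ / (4 * ((K : ℝ) + 1 - c))) → 0 < f →
      f * Y ^ (c - (K + 1)) ≤ (M : ℝ) ^ (-μ) →
      (M : ℝ) ^ (-((K : ℝ) + 1) + μ) ≤ f * Y ^ (c - (K + 1)) →
      ‖∑ n ∈ range L, e (f * (u + n) ^ c)‖ ≤ (M : ℝ) ^ (1 - μ / (8 * K * 2 ^ K)) := by
  have hcf := cf_pos hc K
  have hKR : (1 : ℝ) ≤ K := by exact_mod_cast hK0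
  set a' : ℝ := μ / (8 * K) with ha'
  have ha'0 : 0 < a' := by positivity
  set C2 : ℝ := 2 ^ (K + 1) / cf c K * (1 + 1 / a') ^ K with hC2
  have hC20 : 0 < C2 := by positivity
  have hCq := Cq_pos K
  obtain ⟨M1, hM1⟩ := eventually_atTop.1 (((ev_le (2 * cf c K) (μ / 4) (by positivity)).and
    (ev_le (4 * Cq K) (3 * μ / (8 * K)) (by positivity))).and
    (ev_le (2 * (Cq K * C2)) (μ / 4) (by positivity)))
  refine ⟨max M1 2, ?_⟩
  intro M hM X Y f u L hL hX hu huL hYX hf hup hlow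
  obtain ⟨⟨hM2, hM3⟩, hM3'⟩ := hM1 M (le_of_max_le_left hM)
  have hM5 : 2 ≤ M := le_of_max_le_right hM
  have hM4 : 1 ≤ M := by omega
  have hMR2 : (2 : ℝ) ≤ M := by exact_mod_cast hM5
  have hMR : (1 : ℝ) ≤ M := by linarith
  have hMp : (0 : ℝ) < M := by linarith
  have hlogM : 0 < log M := Real.log_pos (by linarith)
  have hY0 : 0 < Y := by
    have : (0 : ℝ) ≤ L := Nat.cast_nonneg L
    linarith
  have hhy := hy_pw hc K hK (Y := Y) hX
  have hΛ : 0 < f * Y ^ (c - ((K : ℝ) + 1)) := by positivity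
  have h1 := hi_le hK hM4 hX hYX hY0 hf
  -- the exponent of the size of the derivative
  set s : ℝ := log (f * Y ^ (c - ((K : ℝ) + 1))) / log M with hs
  have hsΛ : f * Y ^ (c - ((K : ℝ) + 1)) = (M : ℝ) ^ s := by
    rw [Real.rpow_def_of_pos hMp, hs, mul_div_cancel₀ _ hlogM.ne', Real.exp_log hΛ]
  have hs1 : s ≤ -μ := by
    rw [hsΛ] at hup
    by_contra hcon
    push Not at hcon
    have := Real.rpow_lt_rpow_of_exponent_lt (by linarith : (1 : ℝ) < M) hcon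
    linarith
  have hs2 : -((K : ℝ) + 1) + μ ≤ s := by
    rw [hsΛ] at hlow
    by_contra hcon
    push Not at hcon
    have := Real.rpow_lt_rpow_of_exponent_lt (by linarith : (1 : ℝ) < M) hcon
    linarith
  -- the exponent of the length of the differences
  obtain ⟨κ, hκ1, hκ2, hκ3, hκ4⟩ : ∃ κ : ℝ, μ / 2 ≤ κ ∧ κ ≤ K ∧ s + κ ≤ -(μ / 2) ∧
      μ / 2 ≤ s + 1 + κ := by
    rcases le_total (-s - 1 / 2) (μ / 2) with h | h
    · exact ⟨μ / 2, le_rfl, by linarith, by linarith, by linarith⟩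
    · rcases le_total (-s - 1 / 2) K with h' | h'
      · exact ⟨-s - 1 / 2, h, h', by linarith, by linarith⟩
      · exact ⟨K, by linarith, le_rfl, by linarith, by linarith⟩
  have hκ0 : 0 < κ := by linarith
  set T : ℝ := (M : ℝ) ^ (κ / K) with hT
  have hT1 : 1 ≤ T := Real.one_le_rpow hMR (by positivity)
  have hTM : T ≤ M := by
    calc T ≤ (M : ℝ) ^ (1 : ℝ) := Real.rpow_le_rpow_of_exponent_le hMR (by
          rw [div_le_one (by linarith)]; exact hκ2)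
      _ = M := Real.rpow_one _
  have hTK : T ^ K = (M : ℝ) ^ κ := by
    rw [hT, ← Real.rpow_natCast, ← Real.rpow_mul hMp.le]
    congr 1
    field_simp
  set H : ℕ := ⌊T⌋₊ with hH
  have hH1 : 1 ≤ H := Nat.floor_pos.2 hT1
  have hHT : (H : ℝ) ≤ T := Nat.floor_le (by linarith)
  have hHM : H ≤ M := by exact_mod_cast hHT.trans hTM
  have hHR : (1 : ℝ) ≤ H := by exact_mod_cast hH1
  have hTH : T ≤ 2 * H := by
    have := Nat.lt_floor_add_one T
    rw [← hH] at this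
    linarith
  have hHinv : 1 / (H : ℝ) ≤ 2 / T := by
    rw [div_le_div_iff₀ (by linarith) (by linarith)]
    linarith
  have key := exp_bound (by positivity) (by positivity) f hf hhy u M L H hM4 hL hu huL hH1 hHM
    (by
      have e1 : 2 * (f * (cf c K * X ^ (c - ((K : ℝ) + 1)) * (H : ℝ) ^ K)) =
          2 * cf c K * ((f * X ^ (c - ((K : ℝ) + 1))) * (H : ℝ) ^ K) := by ring
      rw [e1]
      have h3 : (H : ℝ) ^ K ≤ (M : ℝ) ^ κ := by
        rw [← hTK]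
        gcongr
      have h2 : f * X ^ (c - ((K : ℝ) + 1)) ≤ (M : ℝ) ^ s * (M : ℝ) ^ (μ / 4) := by
        rw [← hsΛ]; exact h1
      calc 2 * cf c K * ((f * X ^ (c - ((K : ℝ) + 1))) * (H : ℝ) ^ K)
          ≤ (M : ℝ) ^ (μ / 4) * (((M : ℝ) ^ s * (M : ℝ) ^ (μ / 4)) * (M : ℝ) ^ κ) := by
            gcongr
        _ = (M : ℝ) ^ (μ / 4 + (s + μ / 4 + κ)) := by
            rw [← Real.rpow_add hMp, ← Real.rpow_add hMp, ← Real.rpow_add hMp]
        _ ≤ 1 := by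
            apply Real.rpow_le_one_of_one_le_of_nonpos hMR
            linarith)
  rw [norm_sg] at key
  set S : ℝ := ‖∑ n ∈ range L, e (f * (u + n) ^ c)‖ with hS
  have hS0 : 0 ≤ S := norm_nonneg _
  have h5 : 1 / (H : ℝ) ≤ 2 * (M : ℝ) ^ (-(μ / (2 * K))) := by
    refine hHinv.trans ?_
    rw [div_eq_mul_inv, hT, ← Real.rpow_neg hMp.le]
    refine mul_le_mul_of_nonneg_left ?_ (by norm_num)
    apply Real.rpow_le_rpow_of_exponent_le hMR
    rw [neg_le_neg_iff]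
    calc μ / (2 * K) = (μ / 2) / K := by field_simp
      _ ≤ κ / K := by gcongr
  have h6 : 2 / (f * (cf c K * Y ^ (c - ((K : ℝ) + 1)))) / M * ((1 + log H) / H) ^ K ≤
      C2 * (M : ℝ) ^ (-(3 * μ / 8)) := by
    have h7 : 1 + log H ≤ (1 + 1 / a') * (M : ℝ) ^ a' := by
      refine le_trans ?_ (one_add_log_le hMR ha'0)
      have : log H ≤ log M := Real.log_le_log (by linarith) (by exact_mod_cast hHM)
      linarith
    have h7' : 0 ≤ 1 + log H := by
      have := Real.log_nonneg hHR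
      linarith
    have h8 : (1 + log H) / H ≤ (1 + 1 / a') * (M : ℝ) ^ a' * (2 / T) := by
      rw [div_eq_mul_one_div]
      gcongr
    have h9 : ((1 + log H) / H) ^ K ≤ (1 + 1 / a') ^ K * (M : ℝ) ^ (μ / 8) * (2 ^ K * (M : ℝ) ^ (-κ)) := by
      calc ((1 + log H) / H) ^ K ≤ ((1 + 1 / a') * (M : ℝ) ^ a' * (2 / T)) ^ K := by
            gcongr
        _ = (1 + 1 / a') ^ K * ((M : ℝ) ^ a') ^ K * (2 ^ K * (T ^ K)⁻¹) := by
            rw [mul_pow, mul_pow, div_pow]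
            simp only [div_eq_mul_inv]
        _ = _ := by
            rw [hTK, ← Real.rpow_neg hMp.le, ← Real.rpow_natCast ((M : ℝ) ^ a'),
              ← Real.rpow_mul hMp.le]
            congr 3
            rw [ha']
            field_simp
    have h10 : 2 / (f * (cf c K * Y ^ (c - ((K : ℝ) + 1)))) / M =
        2 / cf c K * (M : ℝ) ^ (-s - 1) := by
      have e1 : 2 / (f * (cf c K * Y ^ (c - ((K : ℝ) + 1)))) / M =
          2 / cf c K * ((f * Y ^ (c - ((K : ℝ) + 1)))⁻¹ * (M : ℝ)⁻¹) := by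
        field_simp
      rw [e1, hsΛ, ← Real.rpow_neg hMp.le]
      nth_rewrite 2 [← Real.rpow_one (M : ℝ)]
      rw [← Real.rpow_neg hMp.le, ← Real.rpow_add hMp]
      rfl
    rw [h10]
    calc 2 / cf c K * (M : ℝ) ^ (-s - 1) * ((1 + log H) / H) ^ K
        ≤ 2 / cf c K * (M : ℝ) ^ (-s - 1) *
          ((1 + 1 / a') ^ K * (M : ℝ) ^ (μ / 8) * (2 ^ K * (M : ℝ) ^ (-κ))) := by gcongr
      _ = C2 * (((M : ℝ) ^ (-s - 1) * (M : ℝ) ^ (μ / 8)) * (M : ℝ) ^ (-κ)) := by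
          rw [hC2, pow_succ]; ring
      _ = C2 * (M : ℝ) ^ (-s - 1 + μ / 8 + -κ) := by
          rw [← Real.rpow_add hMp, ← Real.rpow_add hMp]
      _ ≤ C2 * (M : ℝ) ^ (-(3 * μ / 8)) := by
          refine mul_le_mul_of_nonneg_left ?_ hC20.le
          apply Real.rpow_le_rpow_of_exponent_le hMR
          linarith
  have h11 : (S / M) ^ (2 ^ K) ≤ (M : ℝ) ^ (-(μ / (8 * K))) := by
    refine key.trans ?_
    have h12 : Cq K * (2 * (M : ℝ) ^ (-(μ / (2 * K)))) ≤ 1 / 2 * (M : ℝ) ^ (-(μ / (8 * K))) := by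
      have e1 : (M : ℝ) ^ (-(μ / (8 * K))) = (M : ℝ) ^ (3 * μ / (8 * K)) * (M : ℝ) ^ (-(μ / (2 * K))) := by
        rw [← Real.rpow_add hMp]
        congr 1
        field_simp
        ring
      rw [e1]
      have h13 : 0 < (M : ℝ) ^ (-(μ / (2 * K))) := by positivity
      nlinarith
    have h14 : Cq K * (C2 * (M : ℝ) ^ (-(3 * μ / 8))) ≤ 1 / 2 * (M : ℝ) ^ (-(μ / (8 * K))) := by
      have e1 : (M : ℝ) ^ (μ / 4) * (M : ℝ) ^ (-(3 * μ / 8)) ≤ (M : ℝ) ^ (-(μ / (8 * K))) := by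
        rw [← Real.rpow_add hMp]
        apply Real.rpow_le_rpow_of_exponent_le hMR
        have : μ / (8 * K) ≤ μ / 8 := by
          rw [div_le_div_iff₀ (by positivity) (by positivity)]
          nlinarith
        linarith
      have h13 : 0 < (M : ℝ) ^ (-(3 * μ / 8)) := by positivity
      nlinarith
    calc Cq K * (1 / H + 2 / (f * (cf c K * Y ^ (c - ((K : ℝ) + 1)))) / M *
          ((1 + log H) / H) ^ K)
        ≤ Cq K * (2 * (M : ℝ) ^ (-(μ / (2 * K))) + C2 * (M : ℝ) ^ (-(3 * μ / 8))) := by gcongr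
      _ = Cq K * (2 * (M : ℝ) ^ (-(μ / (2 * K)))) + Cq K * (C2 * (M : ℝ) ^ (-(3 * μ / 8))) := by ring
      _ ≤ _ := by linarith
  have h15 : S / M ≤ (M : ℝ) ^ (-(μ / (8 * K * 2 ^ K))) := by
    have e1 : (M : ℝ) ^ (-(μ / (8 * K))) = ((M : ℝ) ^ (-(μ / (8 * K * 2 ^ K)))) ^ (2 ^ K) := by
      rw [← Real.rpow_natCast ((M : ℝ) ^ (-(μ / (8 * K * 2 ^ K)))), ← Real.rpow_mul hMp.le]
      congr 1
      push_cast
      field_simp
    rw [e1] at h11
    exact le_of_pow_le_pow_left₀ (by positivity) (by positivity) h11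
  rw [div_le_iff₀ hMp] at h15
  refine h15.trans (le_of_eq ?_)
  nth_rewrite 2 [← Real.rpow_one (M : ℝ)]
  rw [← Real.rpow_add hMp]
  congr 1
  ring

end Pool.Agent.H24.PS
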