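import Mathlib
import Pool.Agent.H24.PS.Cmp
import Pool.Agent.H24.PS.Exp

set_option autoImplicit false

/-!
# Two dense sets and one number `⌊y ^ c⌋`
-/

namespace Pool.Agent.H24.PS
open Finset MeasureTheory Complex
open Pool.Agent.K7.H74.WS (w W w_nonneg w_le w_zero w_half)

/-- the frequencies -/
noncomputable def ph (c : ℝ) (Q : ℕ) (n : ℕ) : ℝ := ((Q : ℝ) + n) ^ c

lemma Gs_ph (c : ℝ) (Q N : ℕ) (β : ℝ) :
    Gs N (ph c Q) β = ∑ n ∈ range N, Pool.Agent.H469R2.NK.e (β * ((Q : ℝ) + n) ^ c) := rfl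

/-- Bernoulli's inequality: the growth of `x ^ c` -/
lemma rpow_sub_le {c z m : ℝ} (hc : 1 ≤ c) (hz : 0 ≤ z) (hm : 0 < m) :
    m ^ c - z ^ c ≤ c * m ^ (c - 1) * (m - z) := by
  have h1 : -1 ≤ z / m - 1 := by
    have : 0 ≤ z / m := by positivity
    linarith
  have h2 := one_add_mul_self_le_rpow_one_add h1 hc
  have h3 : 1 + (z / m - 1) = z / m := by ring
  rw [h3, Real.div_rpow hz hm.le, le_div_iff₀ (by positivity)] at h2
  have h4 : m ^ c = m ^ (c - 1) * m := by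
    nth_rewrite 3 [← Real.rpow_one m]
    rw [← Real.rpow_add hm]
    congr 1
    ring
  have h5 : (1 + c * (z / m - 1)) * m ^ c = m ^ c + c * m ^ (c - 1) * (z - m) := by
    rw [h4]
    field_simp
  rw [h5] at h2
  linarith

/-- the numbers `m ^ c` in a short interval -/
lemma count_le {c : ℝ} (hc : 1 ≤ c) {Q : ℕ} (hQ : 1 ≤ Q) {t h ρ : ℝ} (ht : 0 ≤ t) (hh : 0 ≤ h)
    (hρ : 0 ≤ ρ) (h1 : (Q : ℝ) ≤ t ^ (1 / c)) (h2 : t ^ (1 / c) + h < 8 * Q)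
    (h3 : ρ * (c * (8 * (Q : ℝ)) ^ (c - 1) * h) ≤ 1 / 2) :
    (h - 1) / 2 ≤ ∑ n ∈ range (7 * Q), w (ρ * (ph c Q n - t)) := by
  have hc0 : 0 < c := by linarith
  have hQR : (1 : ℝ) ≤ Q := by exact_mod_cast hQ
  set z : ℝ := t ^ (1 / c) with hz
  have hz0 : 0 ≤ z := Real.rpow_nonneg ht _
  have hzc : z ^ c = t := by
    rw [hz, ← Real.rpow_mul ht]
    rw [one_div, inv_mul_cancel₀ hc0.ne', Real.rpow_one]
  set J : ℕ := ⌊h⌋₊ with hJ
  set m0 : ℕ := ⌈z⌉₊ with hm0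
  have hJ1 : (J : ℝ) ≤ h := Nat.floor_le hh
  have hJ2 : h < J + 1 := Nat.lt_floor_add_one h
  have hm1 : z ≤ m0 := Nat.le_ceil z
  have hm2 : (m0 : ℝ) < z + 1 := Nat.ceil_lt_add_one hz0
  have hQm : Q ≤ m0 := by
    have : (Q : ℝ) ≤ m0 := h1.trans hm1
    exact_mod_cast this
  have hsub : Finset.Ico (m0 - Q) (m0 - Q + J) ⊆ range (7 * Q) := by
    intro n hn
    rw [Finset.mem_Ico] at hn
    rw [mem_range]
    have h5 : n + Q + 1 ≤ m0 + J := by omega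
    have h6 : (n : ℝ) + Q + 1 ≤ m0 + J := by exact_mod_cast h5
    have h7 : (n : ℝ) + Q < 8 * Q := by linarith
    have h8 : n + Q < 8 * Q := by exact_mod_cast h7
    omega
  have hterm : ∀ n ∈ Finset.Ico (m0 - Q) (m0 - Q + J), 1 / 2 ≤ w (ρ * (ph c Q n - t)) := by
    intro n hn
    rw [Finset.mem_Ico] at hn
    apply w_half
    have h5 : n + Q + 1 ≤ m0 + J := by omega
    have h6 : (n : ℝ) + Q + 1 ≤ m0 + J := by exact_mod_cast h5
    have h7 : m0 ≤ n + Q := by omega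
    have h8 : (m0 : ℝ) ≤ n + Q := by exact_mod_cast h7
    set m : ℝ := (Q : ℝ) + n with hm
    have hmp : 0 < m := by
      have : (0 : ℝ) ≤ n := Nat.cast_nonneg n
      linarith
    have hzm : z ≤ m := by linarith
    have hm8 : m ≤ 8 * Q := by linarith
    have hmz : m - z ≤ h := by linarith
    have e1 := rpow_sub_le hc hz0 hmp
    rw [hzc] at e1
    have e2 : t ≤ m ^ c := by
      rw [← hzc]
      exact Real.rpow_le_rpow hz0 hzm hc0.le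
    have e3 : c * m ^ (c - 1) * (m - z) ≤ c * (8 * (Q : ℝ)) ^ (c - 1) * h := by
      have e4 : m ^ (c - 1) ≤ (8 * (Q : ℝ)) ^ (c - 1) :=
        Real.rpow_le_rpow hmp.le hm8 (by linarith)
      have e5 : 0 ≤ m - z := by linarith
      gcongr
    have e6 : ph c Q n = m ^ c := rfl
    rw [e6, abs_mul, abs_of_nonneg hρ, abs_of_nonneg (by linarith)]
    calc ρ * (m ^ c - t) ≤ ρ * (c * (8 * (Q : ℝ)) ^ (c - 1) * h) := by
          apply mul_le_mul_of_nonneg_left _ hρ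
          linarith
      _ ≤ 1 / 2 := h3
  calc (h - 1) / 2 ≤ (J : ℝ) * (1 / 2) := by linarith
    _ = (Finset.Ico (m0 - Q) (m0 - Q + J)).card • (1 / 2 : ℝ) := by
        rw [Nat.card_Ico, nsmul_eq_mul]
        congr 2
        omega
    _ ≤ ∑ n ∈ Finset.Ico (m0 - Q) (m0 - Q + J), w (ρ * (ph c Q n - t)) :=
        card_nsmul_le_sum _ _ _ hterm
    _ ≤ _ := sum_le_sum_of_subset_of_nonneg hsub fun _ _ _ => w_nonneg _

/-- the smoothed number of solutions, from below -/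
lemma Sm_ge {c : ℝ} (hc : 1 ≤ c) {Q : ℕ} (hQ : 1 ≤ Q) {h ρ τ : ℝ} (hh : 0 ≤ h)
    (hρ : 0 ≤ ρ) (A B : Finset ℕ)
    (hAB : ∀ a ∈ A, ∀ b ∈ B, 0 ≤ τ - a - b ∧ (Q : ℝ) ≤ (τ - a - b) ^ (1 / c) ∧
      (τ - a - b) ^ (1 / c) + h < 8 * Q)
    (h3 : ρ * (c * (8 * (Q : ℝ)) ^ (c - 1) * h) ≤ 1 / 2) :
    (A.card : ℝ) * B.card * ((h - 1) / 2) ≤ Sm A B (7 * Q) (ph c Q) τ ρ := by
  unfold Sm
  have e1 : (A.card : ℝ) * B.card * ((h - 1) / 2) = ∑ a ∈ A, ∑ b ∈ B, (h - 1) / 2 := by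
    rw [sum_const, sum_const, nsmul_eq_mul, nsmul_eq_mul]
    ring
  rw [e1]
  refine sum_le_sum fun a ha => sum_le_sum fun b hb => ?_
  obtain ⟨h4, h5, h6⟩ := hAB a ha b hb
  refine (count_le hc hQ h4 hh hρ h5 h6 h3).trans (le_of_eq ?_)
  refine sum_congr rfl fun n _ => ?_
  congr 2
  ring

lemma ev_le' (C a : ℝ) (ha : 0 < a) : ∃ M0 : ℕ, ∀ M : ℕ, M0 ≤ M → C ≤ (M : ℝ) ^ a :=
  Filter.eventually_atTop.1 (Pool.Agent.Y933.KD.VdC.ev_le C a ha)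

end Pool.Agent.H24.PS
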