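import Mathlib
import Pool.Agent.H24.PS.Main

set_option autoImplicit false

/-!
# Exponential sums with `n ^ c` at low frequencies, and for `1 < c < 2`
-/

namespace Pool.Agent.H24.PS

open Finset Real Filter
open Pool.Agent.H469R2.NK (e norm_e e_add norm_sum_neg Cq Cq_pos kusmin_landau_mono)
open Pool.Agent.TH915.PW (Hy)
open Pool.Agent.Y933.KD.VdC

/-- the sums `∑ e(ξ n ^ c)` over `Q ≤ n < 8 Q`, for `P ^ (1/2 - c) ≤ |ξ| ≤ P ^ (1/4)`, `P = 8 Q` -/
theorem sum_le_low {c : ℝ} (hc : ∀ m : ℕ, c ≠ m) (hc1 : 1 < c) (K : ℕ) (hK : c - 1 / 2 ≤ K) :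
    ∃ Q0 : ℕ, ∀ Q : ℕ, Q0 ≤ Q → ∀ ξ : ℝ, ((8 * Q : ℕ) : ℝ) ^ (1 / 2 - c) ≤ |ξ| →
      |ξ| ≤ ((8 * Q : ℕ) : ℝ) ^ (1 / 4 : ℝ) →
      ‖∑ n ∈ range (7 * Q), e (ξ * ((Q : ℝ) + n) ^ c)‖ ≤
        ((8 * Q : ℕ) : ℝ) ^ (1 - 1 / (32 * K * 2 ^ K) : ℝ) := by
  have hK1 : (0 : ℝ) < K := by linarith
  have hK0 : 1 ≤ K := by
    have : 0 < K := by exact_mod_cast hK1
    exact this
  have hKc : c < (K : ℝ) + 1 := by linarith
  obtain ⟨M0, hM0⟩ := core_expl hc K hK0 hKc (1 / 4) (by norm_num) le_rfl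
  set δ : ℝ := 1 / 4 / (4 * ((K : ℝ) + 1 - c)) with hδ
  have hδ0 : 0 < δ := by
    have : 0 < (K : ℝ) + 1 - c := by linarith
    positivity
  obtain ⟨M1, hM1⟩ := eventually_atTop.1 (ev_le 8 δ hδ0)
  refine ⟨max (max M0 M1) 1, ?_⟩
  intro Q hQ ξ hlo hup
  have hQ0 : M0 ≤ 8 * Q := by
    have := le_of_max_le_left (le_of_max_le_left hQ)
    omega
  have hQ1 : M1 ≤ 8 * Q := by
    have := le_of_max_le_right (le_of_max_le_left hQ)
    omega
  have hQ2 : 1 ≤ Q := le_of_max_le_right hQ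
  have hQR : (1 : ℝ) ≤ Q := by exact_mod_cast hQ2
  have hM8 := hM1 (8 * Q) hQ1
  set M : ℕ := 8 * Q with hM
  have hMR : (M : ℝ) = 8 * Q := by rw [hM]; push_cast; ring
  have hMR1 : (1 : ℝ) ≤ M := by rw [hMR]; linarith
  have hMp : (0 : ℝ) < M := by linarith
  have hf : 0 < |ξ| := lt_of_lt_of_le (by positivity) hlo
  have key := hM0 M hQ0 (Q : ℝ) (M : ℝ) |ξ| (Q : ℝ) (7 * Q) (by omega) (by linarith) le_rfl
    (by push_cast; rw [hMR]; linarith)
    (by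
      have h8 : (8 : ℝ) ≤ (M : ℝ) ^ δ := hM8
      have e8 : (M : ℝ) = Q * 8 := by rw [hMR]; ring
      calc (M : ℝ) = Q * 8 := e8
        _ ≤ Q * (M : ℝ) ^ δ := mul_le_mul_of_nonneg_left h8 (by linarith))
    hf
    (by
      calc |ξ| * (M : ℝ) ^ (c - ((K : ℝ) + 1))
          ≤ (M : ℝ) ^ (1 / 4 : ℝ) * (M : ℝ) ^ (c - ((K : ℝ) + 1)) := by gcongr
        _ = (M : ℝ) ^ (1 / 4 + (c - ((K : ℝ) + 1))) := by rw [← Real.rpow_add hMp]
        _ ≤ (M : ℝ) ^ (-(1 / 4) : ℝ) := by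
            apply Real.rpow_le_rpow_of_exponent_le hMR1
            linarith)
    (by
      calc (M : ℝ) ^ (-((K : ℝ) + 1) + 1 / 4) ≤ (M : ℝ) ^ (1 / 2 - c + (c - ((K : ℝ) + 1))) := by
            apply Real.rpow_le_rpow_of_exponent_le hMR1
            linarith
        _ = (M : ℝ) ^ (1 / 2 - c) * (M : ℝ) ^ (c - ((K : ℝ) + 1)) := by rw [← Real.rpow_add hMp]
        _ ≤ |ξ| * (M : ℝ) ^ (c - ((K : ℝ) + 1)) := by gcongr)
  have e1 : (1 / 4 : ℝ) / (8 * K * 2 ^ K) = 1 / (32 * K * 2 ^ K) := by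
    rw [div_div]
    congr 1
    ring
  rw [e1] at key
  rcases abs_choice ξ with h | h
  · rw [h] at key
    exact key
  · rw [h] at key
    rw [← norm_sum_neg]
    refine le_of_eq_of_le ?_ key
    congr 1
    refine sum_congr rfl fun n _ => ?_
    congr 1
    ring

/-- the bound used in the comparison theorem, any `c` -/
theorem G_gen {c : ℝ} (hc : ∀ m : ℕ, c ≠ m) (hc1 : 1 < c) (K : ℕ) (hK : c - 1 / 2 ≤ K) :
    ∃ Q0 : ℕ, ∀ Q : ℕ, Q0 ≤ Q → ∀ (j : ℕ) (ξ : ℝ), ((8 * Q : ℕ) : ℝ) ^ (1 / 2 - c) ≤ |ξ| →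
      |ξ| ≤ 4 ^ j → ‖Gs (7 * Q) (ph c Q) ξ‖ ≤
        ((8 * Q : ℕ) : ℝ) ^ (1 - 1 / (32 * K * 2 ^ K) : ℝ) * 2 ^ j := by
  have hK1 : (0 : ℝ) < K := by linarith
  have hK0 : 1 ≤ K := by
    have : 0 < K := by exact_mod_cast hK1
    exact this
  have hKR : (1 : ℝ) ≤ K := by exact_mod_cast hK0
  obtain ⟨Q0, hQ0⟩ := sum_le_low hc hc1 K hK
  refine ⟨max Q0 1, ?_⟩
  intro Q hQ j ξ hlo hup
  have hQ2 : 1 ≤ Q := le_of_max_le_right hQ
  have hQR : (1 : ℝ) ≤ Q := by exact_mod_cast hQ2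
  have key := hQ0 Q (le_of_max_le_left hQ) ξ hlo
  set r : ℝ := 1 / (32 * K * 2 ^ K) with hr
  have hr1 : r ≤ 1 / 8 := by
    rw [hr]
    apply one_div_le_one_div_of_le (by norm_num)
    have h3 : (1 : ℝ) ≤ 2 ^ K := one_le_pow₀ (by norm_num)
    nlinarith
  set P : ℝ := ((8 * Q : ℕ) : ℝ) with hP
  have hPQ : P = 8 * Q := by rw [hP]; push_cast; ring
  have hP8 : 1 ≤ P := by rw [hPQ]; linarith
  have hPp : 0 < P := by linarith
  have h2j : (1 : ℝ) ≤ 2 ^ j := one_le_pow₀ (by norm_num)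
  have hpos : 0 < P ^ (1 - r) := by positivity
  rcases le_or_gt |ξ| (P ^ (1 / 4 : ℝ)) with h | h
  · rw [Gs_ph]
    calc _ ≤ P ^ (1 - r) := key h
      _ ≤ P ^ (1 - r) * 2 ^ j := by nlinarith
  · have h1 : P ^ (1 / 4 : ℝ) ≤ 4 ^ j := h.le.trans hup
    have h2 : P ^ (1 / 8 : ℝ) ≤ 2 ^ j := by
      have h3 : (P ^ (1 / 8 : ℝ)) ^ 2 ≤ ((2 : ℝ) ^ j) ^ 2 := by
        calc (P ^ (1 / 8 : ℝ)) ^ 2 = P ^ (1 / 4 : ℝ) := by
              rw [← Real.rpow_natCast, ← Real.rpow_mul hPp.le]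
              norm_num
          _ ≤ 4 ^ j := h1
          _ = ((2 : ℝ) ^ j) ^ 2 := by
              rw [← pow_mul, mul_comm, pow_mul]
              norm_num
      exact le_of_pow_le_pow_left₀ (by norm_num) (by positivity) h3
    calc ‖Gs (7 * Q) (ph c Q) ξ‖ ≤ ((7 * Q : ℕ) : ℝ) := Gs_le _ _ _
      _ ≤ P := by
          rw [hPQ]
          push_cast
          linarith
      _ = P ^ (1 : ℝ) := (Real.rpow_one P).symm
      _ ≤ P ^ (1 - r + 1 / 8) := by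
          apply Real.rpow_le_rpow_of_exponent_le hP8
          linarith
      _ = P ^ (1 - r) * P ^ (1 / 8 : ℝ) := by rw [Real.rpow_add hPp]
      _ ≤ _ := by gcongr

/-- Kusmin–Landau for `ξ n ^ c` -/
lemma kl_pow {c : ℝ} (hc1 : 1 < c) (hc2 : c < 2) {Q : ℕ} (hQ : 1 ≤ Q) {f : ℝ} (hf : 0 < f)
    (hf1 : 3 * (f * (8 * (Q : ℝ)) ^ (c - 1)) ≤ 1) :
    ‖∑ n ∈ range (7 * Q), e (f * ((Q : ℝ) + n) ^ c)‖ ≤ 2 / (f * (Q : ℝ) ^ (c - 1)) := by
  have hQR : (1 : ℝ) ≤ Q := by exact_mod_cast hQ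
  have hQp : (0 : ℝ) < Q := by linarith
  have hstep : ∀ m : ℝ, 0 < m → c * m ^ (c - 1) ≤ (m + 1) ^ c - m ^ c ∧
      (m + 1) ^ c - m ^ c ≤ c * (m + 1) ^ (c - 1) := by
    intro m hm
    have h1 := rpow_sub_le hc1.le (z := m + 1) (by linarith) hm
    have h2 := rpow_sub_le hc1.le (z := m) (m := m + 1) hm.le (by linarith)
    constructor
    · have e1 : c * m ^ (c - 1) * (m - (m + 1)) = -(c * m ^ (c - 1)) := by ring
      rw [e1] at h1
      linarith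
    · have e1 : c * (m + 1) ^ (c - 1) * (m + 1 - m) = c * (m + 1) ^ (c - 1) := by ring
      rw [e1] at h2
      exact h2
  have hdiff : ∀ n : ℕ, f * ((Q : ℝ) + (n + 1 : ℕ)) ^ c - f * ((Q : ℝ) + n) ^ c =
      f * (((Q : ℝ) + n + 1) ^ c - ((Q : ℝ) + n) ^ c) := by
    intro n
    push_cast
    rw [← add_assoc]
    ring
  have hle8 : f * (Q : ℝ) ^ (c - 1) ≤ f * (8 * (Q : ℝ)) ^ (c - 1) := by
    have : (Q : ℝ) ^ (c - 1) ≤ (8 * (Q : ℝ)) ^ (c - 1) :=
      Real.rpow_le_rpow hQp.le (by linarith) (by linarith)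
    gcongr
  have h := kusmin_landau_mono (fun n : ℕ => f * ((Q : ℝ) + n) ^ c) (7 * Q)
    (θ := f * (Q : ℝ) ^ (c - 1)) (by positivity)
    (by
      intro n _
      rw [hdiff]
      have hn : (0 : ℝ) ≤ n := Nat.cast_nonneg n
      have h1 := (hstep ((Q : ℝ) + n) (by linarith)).1
      have h2 : (Q : ℝ) ^ (c - 1) ≤ ((Q : ℝ) + n) ^ (c - 1) :=
        Real.rpow_le_rpow hQp.le (by linarith) (by linarith)
      have h3 : (Q : ℝ) ^ (c - 1) ≤ c * ((Q : ℝ) + n) ^ (c - 1) := by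
        have : 0 ≤ ((Q : ℝ) + n) ^ (c - 1) := by positivity
        nlinarith
      gcongr
      linarith)
    (by
      intro n hn
      rw [hdiff]
      have hn0 : (0 : ℝ) ≤ n := Nat.cast_nonneg n
      have h1 := (hstep ((Q : ℝ) + n) (by linarith)).2
      have h4 : n + 1 ≤ 7 * Q := hn
      have h5 : (n : ℝ) + 1 ≤ 7 * Q := by exact_mod_cast h4
      have h2 : ((Q : ℝ) + n + 1) ^ (c - 1) ≤ (8 * (Q : ℝ)) ^ (c - 1) :=
        Real.rpow_le_rpow (by linarith) (by linarith) (by linarith)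
      have h6 : f * (((Q : ℝ) + n + 1) ^ c - ((Q : ℝ) + n) ^ c) ≤
          2 * (f * (8 * (Q : ℝ)) ^ (c - 1)) := by
        have h7 : ((Q : ℝ) + n + 1) ^ c - ((Q : ℝ) + n) ^ c ≤ 2 * (8 * (Q : ℝ)) ^ (c - 1) := by
          refine h1.trans ?_
          gcongr
        calc _ ≤ f * (2 * (8 * (Q : ℝ)) ^ (c - 1)) := by gcongr
          _ = _ := by ring
      linarith)
    (by
      intro n _
      have e2 : ((n + 2 : ℕ) : ℝ) = (n : ℝ) + 1 + 1 := by push_cast; ring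
      have e1 : ((n + 1 : ℕ) : ℝ) = (n : ℝ) + 1 := by push_cast; ring
      have hn0 : (0 : ℝ) ≤ n := Nat.cast_nonneg n
      have h1 := (hstep ((Q : ℝ) + n) (by linarith)).2
      have h2 := (hstep ((Q : ℝ) + n + 1) (by linarith)).1
      have h3 : ((Q : ℝ) + n + 1) ^ c - ((Q : ℝ) + n) ^ c ≤
          ((Q : ℝ) + n + 1 + 1) ^ c - ((Q : ℝ) + n + 1) ^ c := h1.trans h2
      show f * ((Q : ℝ) + ((n + 1 : ℕ) : ℝ)) ^ c - f * ((Q : ℝ) + n) ^ c ≤
        f * ((Q : ℝ) + ((n + 2 : ℕ) : ℝ)) ^ c - f * ((Q : ℝ) + ((n + 1 : ℕ) : ℝ)) ^ c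
      rw [e1, e2, ← add_assoc, ← add_assoc, ← add_assoc, ← mul_sub, ← mul_sub]
      exact mul_le_mul_of_nonneg_left h3 hf.le)
  exact h

/-- the second derivative test for `ξ n ^ c` -/
lemma vdc_pow {c : ℝ} (hc : ∀ m : ℕ, c ≠ m) (hc1 : 1 < c) (hc2 : c < 2) :
    ∃ C : ℝ, 0 < C ∧ ∃ Q0 : ℕ, ∀ Q : ℕ, Q0 ≤ Q → ∀ f : ℝ,
      1 ≤ 3 * (f * ((8 * Q : ℕ) : ℝ) ^ (c - 1)) →
      ‖∑ n ∈ range (7 * Q), e (f * ((Q : ℝ) + n) ^ c)‖ ^ 2 ≤
        C * ((8 * Q : ℕ) : ℝ) ^ c * (1 + f) := by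
  have hcf := cf_pos hc 1
  have hCq := Cq_pos 1
  set d : ℝ := cf c 1 with hd
  have hd2 : d ≤ 2 := by
    rw [hd]
    unfold cf
    rw [prod_range_succ, prod_range_succ, prod_range_zero, one_mul]
    push_cast
    rw [sub_zero, abs_of_pos (by nlinarith)]
    nlinarith
  obtain ⟨M1, hM1⟩ := ev_le' (1 + 1 / (c - 1)) (c - 1) (by linarith)
  set C1 : ℝ := Cq 1 * (64 + 1 + 2 * (32 + 3 / d) * (1 + 1 / ((c - 1)))) + 1000 with hC1
  refine ⟨C1, by positivity, max M1 1, ?_⟩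
  intro Q hQ f hf
  have hQ2 : 1 ≤ Q := le_of_max_le_right hQ
  have hQR : (1 : ℝ) ≤ Q := by exact_mod_cast hQ2
  have hQp : (0 : ℝ) < Q := by linarith
  set N : ℕ := 8 * Q with hN
  have hNR : (N : ℝ) = 8 * Q := by rw [hN]; push_cast; ring
  have hN1 : (1 : ℝ) ≤ N := by rw [hNR]; linarith
  have hNp : (0 : ℝ) < N := by linarith
  have hf0 : 0 < f := by
    have h1 : 0 < (N : ℝ) ^ (c - 1) := by positivity
    by_contra h
    push Not at h
    nlinarith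
  set S : ℝ := ‖∑ n ∈ range (7 * Q), e (f * ((Q : ℝ) + n) ^ c)‖ with hS
  have hS0 : 0 ≤ S := norm_nonneg _
  have hSN : S ≤ N := by
    rw [hS]
    refine (norm_sum_le _ _).trans ?_
    rw [sum_congr rfl (fun x _ => norm_e _), sum_const, nsmul_eq_mul, mul_one, card_range, hNR]
    push_cast
    linarith
  have h2c : (1 : ℝ) ≤ 8 ^ (2 - c) := Real.one_le_rpow (by norm_num) (by linarith)
  have h2c' : (8 : ℝ) ^ (2 - c) ≤ 8 := by
    calc (8 : ℝ) ^ (2 - c) ≤ 8 ^ (1 : ℝ) :=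
          Real.rpow_le_rpow_of_exponent_le (by norm_num) (by linarith)
      _ = 8 := Real.rpow_one _
  have hQN : (Q : ℝ) ^ (c - (1 + 1)) = 8 ^ (2 - c) * (N : ℝ) ^ (c - 2) := by
    rw [hNR, Real.mul_rpow (by norm_num) hQp.le, ← mul_assoc, ← Real.rpow_add (by norm_num)]
    have e1 : 2 - c + (c - 2) = 0 := by ring
    rw [e1, Real.rpow_zero, one_mul]
    congr 1
    ring
  set lo : ℝ := d * (N : ℝ) ^ (c - (1 + 1)) with hlo
  set hi : ℝ := d * (Q : ℝ) ^ (c - (1 + 1)) with hhi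
  have hlo0 : 0 < lo := by positivity
  have hhi0 : 0 < hi := by positivity
  have hhilo : hi = 8 ^ (2 - c) * lo := by
    rw [hhi, hlo, hQN]
    have : (N : ℝ) ^ (c - (1 + 1)) = (N : ℝ) ^ (c - 2) := by congr 1; ring
    rw [this]
    ring
  have hNc : (N : ℝ) ^ c = (N : ℝ) ^ 2 * (N : ℝ) ^ (c - (1 + 1)) := by
    rw [← Real.rpow_natCast, ← Real.rpow_add hNp]
    congr 1
    push_cast
    ring
  have hNc1 : (N : ℝ) ^ (c - 1) = (N : ℝ) * (N : ℝ) ^ (c - (1 + 1)) := by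
    nth_rewrite 2 [← Real.rpow_one (N : ℝ)]
    rw [← Real.rpow_add hNp]
    congr 1
    ring
  have hNcp : 0 < (N : ℝ) ^ c := by positivity
  rcases le_or_gt (2 * (f * hi)) 1 with h | h
  · -- the main case
    set x : ℝ := 1 / (2 * (f * hi)) with hx
    have hfhi : 0 < 2 * (f * hi) := by positivity
    have hx1 : 1 ≤ x := by
      rw [hx, le_div_iff₀ hfhi, one_mul]
      exact h
    set H : ℕ := min ⌊x⌋₊ N with hH
    have hfl : 1 ≤ ⌊x⌋₊ := Nat.floor_pos.2 hx1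
    have hH1 : 1 ≤ H := le_min hfl (by omega)
    have hHN : H ≤ N := min_le_right _ _
    have hHR : (1 : ℝ) ≤ H := by exact_mod_cast hH1
    have hHx : (H : ℝ) ≤ x := by
      have h1 : (H : ℝ) ≤ ⌊x⌋₊ := by exact_mod_cast min_le_left _ _
      exact h1.trans (Nat.floor_le (by linarith))
    have hHinv : 1 / (H : ℝ) ≤ 4 * (f * hi) + 1 / N := by
      have hp1 : 0 ≤ 4 * (f * hi) := by positivity
      have hp2 : 0 ≤ 1 / (N : ℝ) := by positivity
      rcases min_choice ⌊x⌋₊ N with h1 | h1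
      · have h2 : x < ⌊x⌋₊ + 1 := Nat.lt_floor_add_one x
        have h3 : (1 : ℝ) ≤ ⌊x⌋₊ := by exact_mod_cast hfl
        have h4 : x ≤ 2 * ⌊x⌋₊ := by linarith
        have h5 : 1 / ((⌊x⌋₊ : ℕ) : ℝ) ≤ 2 / x := by
          rw [div_le_div_iff₀ (by linarith) (by linarith)]
          linarith
        have h6 : 2 / x = 4 * (f * hi) := by
          rw [hx]
          field_simp
          norm_num
        rw [hH, h1]
        linarith
      · rw [hH, h1]
        linarith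
    have hhy := hy_pw hc 1 (by push_cast; linarith) (Y := (N : ℝ)) hQp
    have key := exp_bound (by positivity) (by positivity) f hf0 hhy (Q : ℝ) N (7 * Q) H (by omega)
      (by omega) le_rfl (by push_cast; rw [hNR]; linarith) hH1 hHN
      (by
        rw [pow_one]
        have e1 : cf c 1 * (Q : ℝ) ^ (c - (((1 : ℕ) : ℝ) + 1)) = hi := by
          rw [hhi, hd]
          push_cast
          rfl
        rw [e1]
        calc 2 * (f * (hi * (H : ℝ))) ≤ 2 * (f * (hi * x)) := by gcongr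
          _ = 1 := by
              rw [hx]
              field_simp)
    rw [norm_sg] at key
    have e1 : cf c 1 * (N : ℝ) ^ (c - (((1 : ℕ) : ℝ) + 1)) = lo := by
      rw [hlo, hd]
      push_cast
      rfl
    rw [e1, pow_one, pow_one, ← hS] at key
    have hlog : Real.log H ≤ Real.log N := Real.log_le_log (by linarith) (by exact_mod_cast hHN)
    have hlogH : 0 ≤ Real.log H := Real.log_nonneg hHR
    have hlogN : 1 + Real.log N ≤ (1 + 1 / (c - 1)) * (N : ℝ) ^ (c - 1) :=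
      one_add_log_le hN1 (by linarith)
    -- the second term
    have k1 : 2 / (f * lo) / N * ((1 + Real.log H) / H) ≤
        2 * (32 + 3 / d) * ((1 + 1 / (c - 1)) * (N : ℝ) ^ (c - 1)) / N := by
      have k2 : (1 + Real.log H) / H ≤ (1 + Real.log N) * (4 * (f * hi) + 1 / N) := by
        rw [div_eq_mul_one_div]
        have : 0 ≤ 1 + Real.log N := by linarith
        gcongr
      have k3 : 2 / (f * lo) / N * (4 * (f * hi) + 1 / N) ≤ 2 * (32 + 3 / d) / N := by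
        have k4 : 2 / (f * lo) / N * (4 * (f * hi) + 1 / N) =
            2 * (4 * 8 ^ (2 - c) + 1 / (f * lo * N)) / N := by
          rw [hhilo]
          field_simp
        rw [k4]
        have k5 : 1 / (f * lo * N) ≤ 3 / d := by
          rw [div_le_div_iff₀ (by positivity) hcf]
          have k6 : f * lo * N = d * (f * (N : ℝ) ^ (c - 1)) := by
            rw [hNc1, hlo]
            ring
          rw [k6]
          nlinarith
        gcongr
        linarith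
      calc 2 / (f * lo) / N * ((1 + Real.log H) / H)
          ≤ 2 / (f * lo) / N * ((1 + Real.log N) * (4 * (f * hi) + 1 / N)) := by gcongr
        _ = (2 / (f * lo) / N * (4 * (f * hi) + 1 / N)) * (1 + Real.log N) := by ring
        _ ≤ (2 * (32 + 3 / d) / N) * ((1 + 1 / (c - 1)) * (N : ℝ) ^ (c - 1)) := by
            have : 0 ≤ 1 + Real.log N := by linarith
            gcongr
        _ = _ := by ring
    have k2 : (S / N) ^ 2 ≤ Cq 1 * ((4 * (f * hi) + 1 / N) +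
        2 * (32 + 3 / d) * ((1 + 1 / (c - 1)) * (N : ℝ) ^ (c - 1)) / N) := by
      refine key.trans ?_
      gcongr
    have k3 : S ^ 2 = (S / N) ^ 2 * (N : ℝ) ^ 2 := by
      rw [div_pow]
      field_simp
    rw [k3]
    have k4 : (4 * (f * hi)) * (N : ℝ) ^ 2 ≤ 64 * f * (N : ℝ) ^ c := by
      rw [hhilo, hlo, hNc]
      have : 8 ^ (2 - c) * d ≤ 16 := by nlinarith
      have h5 : 0 ≤ f * (N : ℝ) ^ (c - (1 + 1)) * (N : ℝ) ^ 2 := by positivity
      nlinarith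
    have k5 : (N : ℝ) ≤ (N : ℝ) ^ c := by
      calc (N : ℝ) = (N : ℝ) ^ (1 : ℝ) := (Real.rpow_one _).symm
        _ ≤ _ := Real.rpow_le_rpow_of_exponent_le hN1 hc1.le
    have k6 : (N : ℝ) ^ (c - 1) * N = (N : ℝ) ^ c := by
      nth_rewrite 2 [← Real.rpow_one (N : ℝ)]
      rw [← Real.rpow_add hNp]
      congr 1
      ring
    have hc1' : 0 < c - 1 := by linarith
    calc (S / N) ^ 2 * (N : ℝ) ^ 2 ≤ (Cq 1 * ((4 * (f * hi) + 1 / N) +
        2 * (32 + 3 / d) * ((1 + 1 / (c - 1)) * (N : ℝ) ^ (c - 1)) / N)) * (N : ℝ) ^ 2 := by gcongr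
      _ = Cq 1 * (4 * (f * hi) * (N : ℝ) ^ 2 + N +
          2 * (32 + 3 / d) * (1 + 1 / (c - 1)) * ((N : ℝ) ^ (c - 1) * N)) := by
          field_simp
      _ ≤ Cq 1 * (64 * f * (N : ℝ) ^ c + (N : ℝ) ^ c +
          2 * (32 + 3 / d) * (1 + 1 / (c - 1)) * (N : ℝ) ^ c) := by
          rw [k6]
          gcongr
      _ ≤ C1 * (N : ℝ) ^ c * (1 + f) := by
          rw [hC1]
          have h6 : 0 < Cq 1 * (2 * (32 + 3 / d) * (1 + 1 / (c - 1))) := by positivity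
          have h7 : 0 < f * (N : ℝ) ^ c := by positivity
          have h8 : 0 < Cq 1 * (f * (N : ℝ) ^ c) := by positivity
          have h9 : 0 < Cq 1 * (N : ℝ) ^ c := by positivity
          have h10 : 0 < Cq 1 * (2 * (32 + 3 / d) * (1 + 1 / (c - 1))) * (f * (N : ℝ) ^ c) := by
            positivity
          nlinarith
  · -- large frequencies: the trivial bound
    have h1 : 1 < 2 * (f * (8 * (2 * (N : ℝ) ^ (c - (1 + 1))))) := by
      refine h.trans_le ?_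
      rw [hhilo, hlo]
      gcongr
    have h2 : (N : ℝ) ^ 2 ≤ 32 * f * (N : ℝ) ^ c := by
      rw [hNc]
      have : 0 < (N : ℝ) ^ 2 := by positivity
      nlinarith
    calc S ^ 2 ≤ (N : ℝ) ^ 2 := by gcongr
      _ ≤ 32 * f * (N : ℝ) ^ c := h2
      _ ≤ 1000 * (N : ℝ) ^ c * (1 + f) := by nlinarith
      _ ≤ C1 * (N : ℝ) ^ c * (1 + f) := by
          have : (1000 : ℝ) ≤ C1 := by
            rw [hC1]
            have hc1' : 0 < c - 1 := by linarith
            have : 0 < Cq 1 * (64 + 1 + 2 * (32 + 3 / d) * (1 + 1 / ((c - 1)))) := by positivity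
            linarith
          gcongr

end Pool.Agent.H24.PS
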