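import Mathlib

set_option autoImplicit false

/-!
# Many sums of `u` distinct-looking `k`-th powers with bases in a set of exponent one
-/

namespace Pool.Agent.H24.PS
open Finset Filter

/-- `𝓑` has exponent one: `#(𝓑 ∩ [0, x]) ≥ x ^ (1 - ε)` for all `ε > 0` and all large `x` -/
def ExpOne (𝓑 : Set ℕ) : Prop :=
  ∀ ε : ℝ, 0 < ε → ∃ x₀ : ℕ, ∀ x : ℕ, x₀ ≤ x → (x : ℝ) ^ (1 - ε) ≤ ({b | b ∈ 𝓑 ∧ b ≤ x} : Set ℕ).ncard

lemma ev_real (C a : ℝ) (ha : 0 < a) : ∃ X0 : ℝ, ∀ X : ℝ, X0 ≤ X → C ≤ X ^ a :=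
  eventually_atTop.1 ((tendsto_rpow_atTop ha).eventually_ge_atTop C)

/-- the bases between `X ^ (1 - δ)` and `X / 2` -/
lemma bases {𝓑 : Set ℕ} (h𝓑 : ExpOne 𝓑) {δ : ℝ} (hδ : 0 < δ) (hδ1 : δ ≤ 1) :
    ∃ X0 : ℝ, ∀ X : ℝ, X0 ≤ X → ∃ S : Finset ℕ, (∀ b ∈ S, b ∈ 𝓑 ∧ X ^ (1 - δ) ≤ (b : ℝ) ∧
      (b : ℝ) ≤ X / 2) ∧ X ^ (1 - δ) ≤ S.card := by
  classical
  obtain ⟨x0, hx0⟩ := h𝓑 (δ / 2) (by positivity)
  obtain ⟨X1, hX1⟩ := ev_real 12 (δ / 2) (by positivity)
  refine ⟨max (max (2 * (x0 + 1)) X1) 4, ?_⟩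
  intro X hX
  have ha : 2 * ((x0 : ℝ) + 1) ≤ X := (le_max_left _ _).trans ((le_max_left _ _).trans hX)
  have hb : X1 ≤ X := (le_max_right _ _).trans ((le_max_left _ _).trans hX)
  have hc : 4 ≤ X := (le_max_right _ _).trans hX
  have hX0 : 0 < X := by linarith
  have h12 := hX1 X hb
  set x : ℕ := ⌊X / 2⌋₊ with hx
  have hxle : (x : ℝ) ≤ X / 2 := Nat.floor_le (by positivity)
  have hxlt : X / 2 < x + 1 := Nat.lt_floor_add_one _
  have hxx0 : x0 ≤ x := by
    apply Nat.le_floor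
    linarith
  have hx4 : X / 4 ≤ x := by linarith
  have hcount := hx0 x hxx0
  set F : Finset ℕ := (range (x + 1)).filter (· ∈ 𝓑) with hF
  have hFc : ({b | b ∈ 𝓑 ∧ b ≤ x} : Set ℕ).ncard = F.card := by
    rw [← Set.ncard_coe_finset]
    congr 1
    ext b
    simp only [hF, Set.mem_ofPred_eq, coe_filter, mem_range, Order.lt_add_one_iff]
    exact and_comm
  rw [hFc] at hcount
  set G : Finset ℕ := F.filter (fun b : ℕ => X ^ (1 - δ) ≤ (b : ℝ)) with hG
  refine ⟨G, ?_, ?_⟩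
  · intro b hb
    rw [hG, mem_filter, hF, mem_filter, mem_range] at hb
    refine ⟨hb.1.2, hb.2, ?_⟩
    have : b ≤ x := by omega
    have : (b : ℝ) ≤ x := by exact_mod_cast this
    linarith
  · have h1 : F ⊆ G ∪ range ⌈X ^ (1 - δ)⌉₊ := by
      intro b hb
      rw [mem_union, hG, mem_filter, mem_range]
      by_cases h : X ^ (1 - δ) ≤ (b : ℝ)
      · exact Or.inl ⟨hb, h⟩
      · right
        push Not at h
        have h3 : (b : ℝ) < ⌈X ^ (1 - δ)⌉₊ := h.trans_le (Nat.le_ceil _)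
        exact_mod_cast h3
    have h2 := (card_le_card h1).trans (card_union_le _ _)
    rw [card_range] at h2
    have h3 : (F.card : ℝ) ≤ G.card + ⌈X ^ (1 - δ)⌉₊ := by exact_mod_cast h2
    have h4 : (⌈X ^ (1 - δ)⌉₊ : ℝ) < X ^ (1 - δ) + 1 := Nat.ceil_lt_add_one (by positivity)
    have h5 : 1 ≤ X ^ (1 - δ) := Real.one_le_rpow (by linarith) (by linarith)
    have h6 : 3 * X ^ (1 - δ) ≤ (x : ℝ) ^ (1 - δ / 2) := by
      have e1 : (X / 4) ^ (1 - δ / 2) ≤ (x : ℝ) ^ (1 - δ / 2) :=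
        Real.rpow_le_rpow (by positivity) hx4 (by linarith)
      have e2 : (X / 4) ^ (1 - δ / 2) = X ^ (1 - δ / 2) / 4 ^ (1 - δ / 2) :=
        Real.div_rpow hX0.le (by norm_num) _
      have e3 : (4 : ℝ) ^ (1 - δ / 2) ≤ 4 := by
        calc (4 : ℝ) ^ (1 - δ / 2) ≤ 4 ^ (1 : ℝ) :=
              Real.rpow_le_rpow_of_exponent_le (by norm_num) (by linarith)
          _ = 4 := Real.rpow_one _
      have e4 : X ^ (1 - δ / 2) = X ^ (1 - δ) * X ^ (δ / 2) := by
        rw [← Real.rpow_add hX0]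
        congr 1
        ring
      have e5 : X ^ (1 - δ / 2) / 4 ≤ X ^ (1 - δ / 2) / 4 ^ (1 - δ / 2) := by
        gcongr
      have e6 : 12 * X ^ (1 - δ) ≤ X ^ (1 - δ / 2) := by
        rw [e4]
        nlinarith
      linarith
    linarith

/-- the exponent of the number of sums of `u` `k`-th powers -/
noncomputable def Ex (k u : ℕ) : ℝ := k * (1 - (1 - 1 / (k : ℝ)) ^ u)

lemma Ex_succ {k : ℕ} (hk : 1 ≤ k) (u : ℕ) : Ex k (u + 1) = 1 + ((k : ℝ) - 1) / k * Ex k u := by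
  have hk' : (k : ℝ) ≠ 0 := by
    have : 0 < k := hk
    positivity
  unfold Ex
  rw [pow_succ]
  field_simp
  ring

lemma Ex_nonneg {k : ℕ} (hk : 1 ≤ k) (u : ℕ) : 0 ≤ Ex k u := by
  have hk' : (1 : ℝ) ≤ k := by exact_mod_cast hk
  have h1 : 0 ≤ 1 - 1 / (k : ℝ) := by
    rw [sub_nonneg, div_le_one (by linarith)]
    exact hk'
  have h2 : 1 - 1 / (k : ℝ) ≤ 1 := by
    have : 0 ≤ 1 / (k : ℝ) := by positivity
    linarith
  have h3 := pow_le_one₀ (n := u) h1 h2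
  unfold Ex
  have : 0 ≤ 1 - (1 - 1 / (k : ℝ)) ^ u := by linarith
  positivity

lemma Ex_le {k : ℕ} (hk : 1 ≤ k) (u : ℕ) : Ex k u ≤ k := by
  have hk' : (1 : ℝ) ≤ k := by exact_mod_cast hk
  have h1 : 0 ≤ 1 - 1 / (k : ℝ) := by
    rw [sub_nonneg, div_le_one (by linarith)]
    exact hk'
  have h3 : 0 ≤ (1 - 1 / (k : ℝ)) ^ u := by positivity
  unfold Ex
  nlinarith

lemma Ex_mono {k : ℕ} (hk : 1 ≤ k) {u v : ℕ} (huv : u ≤ v) : Ex k u ≤ Ex k v := by
  have hk' : (1 : ℝ) ≤ k := by exact_mod_cast hk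
  have h1 : 0 ≤ 1 - 1 / (k : ℝ) := by
    rw [sub_nonneg, div_le_one (by linarith)]
    exact hk'
  have h2 : 1 - 1 / (k : ℝ) ≤ 1 := by
    have : 0 ≤ 1 / (k : ℝ) := by positivity
    linarith
  have h3 := pow_le_pow_of_le_one h1 h2 huv
  unfold Ex
  gcongr

/-- consecutive `k`-th powers are far apart -/
lemma pow_gap {k : ℕ} (hk : 2 ≤ k) {x y : ℕ} (hx : 1 ≤ x) (hxy : x < y) :
    (x : ℝ) ^ k + (x : ℝ) ^ (k - 1) < (y : ℝ) ^ k := by
  have hx' : (1 : ℝ) ≤ x := by exact_mod_cast hx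
  have h1 : (x : ℝ) + 1 ≤ y := by exact_mod_cast hxy
  obtain ⟨m, rfl⟩ : ∃ m, k = m + 2 := ⟨k - 2, by omega⟩
  have h2 : ((x : ℝ) + 1) ^ (m + 2) ≤ (y : ℝ) ^ (m + 2) := by gcongr
  have h3 : (x : ℝ) ^ (m + 1) ≤ ((x : ℝ) + 1) ^ (m + 1) := by gcongr; linarith
  have h4 : (x : ℝ) ^ m ≤ ((x : ℝ) + 1) ^ m := by gcongr; linarith
  have h5 : ((x : ℝ) + 1) ^ (m + 2) = x * (x + 1) ^ (m + 1) + (x + 1) ^ (m + 1) := by ring
  have h6 : (0 : ℝ) < (x : ℝ) ^ m := by positivity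
  have h7 : (x : ℝ) ^ (m + 1) < (x + 1) ^ (m + 1) := by
    have : (x + 1 : ℝ) ^ (m + 1) = x * (x + 1) ^ m + (x + 1) ^ m := by ring
    rw [this, pow_succ]
    nlinarith
  have h8 : m + 2 - 1 = m + 1 := rfl
  rw [h8]
  have h9 : (x : ℝ) ^ (m + 2) = x * x ^ (m + 1) := by ring
  nlinarith

/-- many sums of `u` `k`-th powers with bases in `𝓑` -/
theorem greedy {𝓑 : Set ℕ} (h𝓑 : ExpOne 𝓑) {k : ℕ} (hk : 2 ≤ k) (u : ℕ) :
    ∀ ε : ℝ, 0 < ε → ∃ X0 : ℝ, ∀ X : ℝ, X0 ≤ X → ∃ A : Finset ℕ, (∀ a ∈ A, (a : ℝ) ≤ X ^ k) ∧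
      (∀ a ∈ A, ∃ f : Fin u → ℕ, (∀ i, f i ∈ 𝓑) ∧ a = ∑ i, f i ^ k) ∧
      X ^ (Ex k u - ε) ≤ A.card := by
  classical
  have hkR : (2 : ℝ) ≤ k := by exact_mod_cast hk
  induction u with
  | zero =>
    intro ε hε
    refine ⟨1, fun X hX => ⟨{0}, ?_, ?_, ?_⟩⟩
    · intro a ha
      rw [mem_singleton] at ha
      rw [ha, Nat.cast_zero]
      positivity
    · intro a ha
      rw [mem_singleton] at ha
      exact ⟨Fin.elim0, fun i => i.elim0, by simp [ha]⟩
    · rw [card_singleton, Nat.cast_one]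
      apply Real.rpow_le_one_of_one_le_of_nonpos hX
      unfold Ex
      simp
      linarith
  | succ u ih =>
    intro ε₀ hε₀
    set ε : ℝ := min ε₀ 1 with hε
    have hε0 : 0 < ε := lt_min hε₀ one_pos
    have hε1 : ε ≤ 1 := min_le_right _ _
    set δ : ℝ := ε / (2 * k) with hδ
    have hδ0 : 0 < δ := by positivity
    have hδ1 : δ ≤ 1 := by
      rw [hδ, div_le_one (by positivity)]
      linarith
    have hδlt : δ < 1 := by
      rw [hδ, div_lt_one (by positivity)]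
      linarith
    obtain ⟨X1, hX1⟩ := bases h𝓑 hδ0 hδ1
    obtain ⟨X2, hX2⟩ := ih (ε / 2) (by positivity)
    have hexp : 0 < (1 - δ) * (((k : ℝ) - 1) / k) := by
      have : 0 < 1 - δ := by linarith
      have : 0 < (k : ℝ) - 1 := by linarith
      positivity
    obtain ⟨X3, hX3⟩ := ev_real X2 _ hexp
    refine ⟨max (max X1 X3) 2, ?_⟩
    intro X hX
    have ha : X1 ≤ X := (le_max_left _ _).trans ((le_max_left _ _).trans hX)
    have hb : X3 ≤ X := (le_max_right _ _).trans ((le_max_left _ _).trans hX)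
    have hc : 2 ≤ X := (le_max_right _ _).trans hX
    have hX0 : 0 < X := by linarith
    obtain ⟨S, hS1, hS2⟩ := hX1 X ha
    set Y : ℝ := X ^ ((1 - δ) * (((k : ℝ) - 1) / k)) with hY
    have hY0 : 0 < Y := by positivity
    obtain ⟨A', hA1, hA2, hA3⟩ := hX2 Y (hX3 X hb)
    have hYk : Y ^ k = (X ^ (1 - δ)) ^ (k - 1) := by
      rw [hY, ← Real.rpow_natCast, ← Real.rpow_natCast, ← Real.rpow_mul hX0.le,
        ← Real.rpow_mul hX0.le]
      congr 1
      rw [Nat.cast_sub (by omega)]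
      field_simp
      push_cast
      ring
    have hgap : ∀ x ∈ S, Y ^ k ≤ (x : ℝ) ^ (k - 1) := by
      intro x hx
      rw [hYk]
      exact pow_le_pow_left₀ (by positivity) (hS1 x hx).2.1 _
    have hpos : ∀ x ∈ S, 1 ≤ x := by
      intro x hx
      have h1 : (1 : ℝ) ≤ x := (Real.one_le_rpow (by linarith) (by linarith)).trans (hS1 x hx).2.1
      exact_mod_cast h1
    have hlt : ∀ x ∈ S, ∀ a ∈ A', ∀ y : ℕ, x < y → x ^ k + a < y ^ k := by
      intro x hx a ha y hxy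
      have h1 := pow_gap hk (hpos x hx) hxy
      have h2 := hgap x hx
      have h3 := hA1 a ha
      have h4 : (x : ℝ) ^ k + a < (y : ℝ) ^ k := by linarith
      exact_mod_cast h4
    have hinj : Set.InjOn (fun p : ℕ × ℕ => p.1 ^ k + p.2) (S ×ˢ A' : Finset (ℕ × ℕ)) := by
      rintro ⟨x, a⟩ hp ⟨y, b⟩ hq hpq
      rw [mem_coe, mem_product] at hp hq
      simp only at hp hq hpq
      rcases lt_trichotomy x y with h | h | h
      · have := hlt x hp.1 a hp.2 y h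
        omega
      · subst h
        have : a = b := by omega
        rw [this]
      · have := hlt y hq.1 b hq.2 x h
        omega
    refine ⟨(S ×ˢ A').image (fun p : ℕ × ℕ => p.1 ^ k + p.2), ?_, ?_, ?_⟩
    · intro a ha
      rw [mem_image] at ha
      obtain ⟨⟨x, a'⟩, hp, rfl⟩ := ha
      rw [mem_product] at hp
      simp only at hp ⊢
      have h1 := (hS1 x hp.1).2.2
      have h2 := hA1 a' hp.2
      have h3 : (x : ℝ) ^ k ≤ (X / 2) ^ k := by gcongr
      have h4 : (X / 2) ^ k ≤ X ^ k / 2 := by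
        rw [div_pow]
        have : (2 : ℝ) ≤ 2 ^ k := by
          calc (2 : ℝ) = 2 ^ 1 := by norm_num
            _ ≤ 2 ^ k := pow_le_pow_right₀ (by norm_num) (by omega)
        gcongr
      have h5 : Y ^ k ≤ X ^ k / 2 := by
        rw [hYk]
        have e1 : X ^ (1 - δ) ≤ X := by
          calc X ^ (1 - δ) ≤ X ^ (1 : ℝ) :=
                Real.rpow_le_rpow_of_exponent_le (by linarith) (by linarith)
            _ = X := Real.rpow_one _
        have e2 : (X ^ (1 - δ)) ^ (k - 1) ≤ X ^ (k - 1) := by gcongr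
        have e3 : X ^ k = X ^ (k - 1) * X := by
          rw [← pow_succ]
          congr 1
          omega
        have e4 : 0 < X ^ (k - 1) := by positivity
        rw [e3]
        nlinarith
      push_cast
      linarith
    · intro a ha
      rw [mem_image] at ha
      obtain ⟨⟨x, a'⟩, hp, rfl⟩ := ha
      rw [mem_product] at hp
      obtain ⟨f, hf1, hf2⟩ := hA2 a' hp.2
      refine ⟨Fin.cons x f, ?_, ?_⟩
      · intro i
        refine Fin.cases ?_ (fun j => ?_) i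
        · exact (hS1 x hp.1).1
        · exact hf1 j
      · rw [Fin.sum_univ_succ]
        simp only [Fin.cons_zero, Fin.cons_succ]
        rw [hf2]
    · rw [card_image_of_injOn hinj, card_product]
      push_cast
      have e1 : X ^ (Ex k (u + 1) - ε₀) ≤ X ^ (1 - δ) * Y ^ (Ex k u - ε / 2) := by
        rw [hY, ← Real.rpow_mul hX0.le, ← Real.rpow_add hX0]
        apply Real.rpow_le_rpow_of_exponent_le (by linarith)
        rw [Ex_succ (by omega)]
        have h1 := Ex_le (k := k) (by omega) (u + 1)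
        rw [Ex_succ (by omega)] at h1
        have h2 : ε ≤ ε₀ := min_le_left _ _
        have h3 : δ * k = ε / 2 := by
          rw [hδ]
          field_simp
        have h4 : ((k : ℝ) - 1) / k ≤ 1 := by
          rw [div_le_one (by linarith)]
          linarith
        have h5 : 0 ≤ ((k : ℝ) - 1) / k := by
          apply div_nonneg <;> linarith
        have h6 : 0 ≤ (1 - δ) * (((k : ℝ) - 1) / k) := hexp.le
        have h7 : (1 - δ) * (((k : ℝ) - 1) / k) ≤ 1 := by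
          have : 1 - δ ≤ 1 := by linarith
          nlinarith
        have h8 : (1 - δ) * (((k : ℝ) - 1) / k) * (ε / 2) ≤ ε / 2 := by nlinarith
        have h9 : δ * (1 + ((k : ℝ) - 1) / k * Ex k u) ≤ ε / 2 := by
          rw [← h3]
          gcongr
        nlinarith
      refine e1.trans ?_
      gcongr

end Pool.Agent.H24.PS
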