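import Mathlib
import Pool.Agent.H24.PS.Cmp2
import Pool.Agent.H24.PS.Exp2

set_option autoImplicit false

/-!
# Two dense sets and one number `⌊y ^ c⌋`: the number of solutions
-/

namespace Pool.Agent.H24.PS
open Finset
open Pool.Agent.K7.H74.WS (w W w_nonneg w_le w_zero w_half)

/-- the sum does not depend on the sign of the frequency -/
lemma Gs_abs (N : ℕ) (φ : ℕ → ℝ) (ξ : ℝ) : ‖Gs N φ |ξ|‖ = ‖Gs N φ ξ‖ := by
  rcases abs_choice ξ with h | h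
  · rw [h]
  · rw [h]
    have h1 := Pool.Agent.H469R2.NK.norm_sum_neg (fun n => ξ * φ n) N
    have h2 : ∀ β : ℝ, Gs N φ β = ∑ n ∈ range N, Pool.Agent.H469R2.NK.e (β * φ n) := fun β => rfl
    rw [h2, h2, ← h1]
    congr 1
    refine sum_congr rfl fun n _ => ?_
    congr 1
    ring

/-- the bound used in the comparison theorem, `1 < c < 2` -/
theorem G_two {c : ℝ} (hc : ∀ m : ℕ, c ≠ m) (hc1 : 1 < c) (hc2 : c < 2) :
    ∃ C : ℝ, 0 < C ∧ ∃ Q0 : ℕ, ∀ Q : ℕ, Q0 ≤ Q → ∀ (j : ℕ) (ξ : ℝ),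
      ((8 * Q : ℕ) : ℝ) ^ (1 / 2 - c) ≤ |ξ| → |ξ| ≤ 4 ^ j →
      ‖Gs (7 * Q) (ph c Q) ξ‖ ≤ C * ((8 * Q : ℕ) : ℝ) ^ (c / 2) * 2 ^ j := by
  obtain ⟨C1, hC1, Q0, hQ0⟩ := vdc_pow hc hc1 hc2
  refine ⟨16 + Real.sqrt (2 * C1), by positivity, max Q0 1, ?_⟩
  intro Q hQ j ξ hlo hup
  have hQ2 : 1 ≤ Q := le_of_max_le_right hQ
  have hQR : (1 : ℝ) ≤ Q := by exact_mod_cast hQ2
  have hQp : (0 : ℝ) < Q := by linarith
  rw [← Gs_abs, Gs_ph]
  have key := hQ0 Q (le_of_max_le_left hQ) |ξ|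
  have key2 := kl_pow hc1 hc2 hQ2 (f := |ξ|)
  set f : ℝ := |ξ| with hf
  set P : ℝ := ((8 * Q : ℕ) : ℝ) with hP
  have hPQ : P = 8 * Q := by rw [hP]; push_cast; ring
  have hP8 : 1 ≤ P := by rw [hPQ]; linarith
  have hPp : 0 < P := by linarith
  have hf0 : 0 < f := lt_of_lt_of_le (by positivity) hlo
  have h2j : (1 : ℝ) ≤ 2 ^ j := one_le_pow₀ (by norm_num)
  have hPc : 0 < P ^ (c / 2) := by positivity
  have hsq : 0 ≤ Real.sqrt (2 * C1) := Real.sqrt_nonneg _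
  rcases le_or_gt (3 * (f * P ^ (c - 1))) 1 with h | h
  · rw [← hPQ] at key2
    refine (key2 hf0 h).trans ?_
    have e1 : P ^ (c - 1) ≤ 8 * (Q : ℝ) ^ (c - 1) := by
      rw [hPQ, Real.mul_rpow (by norm_num) hQp.le]
      have : (8 : ℝ) ^ (c - 1) ≤ 8 := by
        calc (8 : ℝ) ^ (c - 1) ≤ 8 ^ (1 : ℝ) :=
              Real.rpow_le_rpow_of_exponent_le (by norm_num) (by linarith)
          _ = 8 := Real.rpow_one _
      gcongr
    have e2 : P ^ (-(1 / 2) : ℝ) ≤ 8 * (f * (Q : ℝ) ^ (c - 1)) := by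
      calc P ^ (-(1 / 2) : ℝ) = P ^ (1 / 2 - c) * P ^ (c - 1) := by
            rw [← Real.rpow_add hPp]
            congr 1
            ring
        _ ≤ f * (8 * (Q : ℝ) ^ (c - 1)) := by gcongr
        _ = _ := by ring
    have e3 : 2 / (f * (Q : ℝ) ^ (c - 1)) ≤ 16 * P ^ (1 / 2 : ℝ) := by
      rw [div_le_iff₀ (by positivity)]
      have e4 : P ^ (1 / 2 : ℝ) * P ^ (-(1 / 2) : ℝ) = 1 := by
        rw [← Real.rpow_add hPp]
        norm_num
      have e5 : 0 < P ^ (1 / 2 : ℝ) := by positivity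
      nlinarith
    have e6 : P ^ (1 / 2 : ℝ) ≤ P ^ (c / 2) :=
      Real.rpow_le_rpow_of_exponent_le hP8 (by linarith)
    calc 2 / (f * (Q : ℝ) ^ (c - 1)) ≤ 16 * P ^ (1 / 2 : ℝ) := e3
      _ ≤ (16 + Real.sqrt (2 * C1)) * P ^ (c / 2) * 1 := by nlinarith
      _ ≤ (16 + Real.sqrt (2 * C1)) * P ^ (c / 2) * 2 ^ j := by gcongr
  · have h1 := key h.le
    have h4j : (1 : ℝ) ≤ 4 ^ j := one_le_pow₀ (by norm_num)
    have h2 : P ^ c = (P ^ (c / 2)) ^ 2 := by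
      rw [← Real.rpow_natCast, ← Real.rpow_mul hPp.le]
      congr 1
      push_cast
      ring
    have h3 : ((4 : ℝ) ^ j) = ((2 : ℝ) ^ j) ^ 2 := by
      rw [← pow_mul, mul_comm, pow_mul]
      norm_num
    have h4 : ‖∑ n ∈ range (7 * Q), Pool.Agent.H469R2.NK.e (f * ((Q : ℝ) + n) ^ c)‖ ^ 2 ≤
        (Real.sqrt (2 * C1) * P ^ (c / 2) * 2 ^ j) ^ 2 := by
      refine h1.trans ?_
      rw [mul_pow, mul_pow, Real.sq_sqrt (by positivity), ← h2, ← h3]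
      have : 1 + f ≤ 2 * 4 ^ j := by linarith
      calc C1 * P ^ c * (1 + f) ≤ C1 * P ^ c * (2 * 4 ^ j) := by gcongr
        _ = _ := by ring
    have h5 := le_of_pow_le_pow_left₀ (by norm_num) (by positivity) h4
    calc _ ≤ _ := h5
      _ ≤ _ := by
        gcongr
        linarith

open Classical in
/-- the numbers `a + b + y ^ c` near `τ` -/
noncomputable def good (A B : Finset ℕ) (c : ℝ) (Q : ℕ) (τ : ℝ) : Finset (ℕ × ℕ) :=
  (A ×ˢ B).filter fun p => ∃ n : ℕ, |(p.1 : ℝ) + p.2 + ((Q : ℝ) + n) ^ c - τ| < 1 / 2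

/-- for given `a`, `b` there is at most one solution -/
lemma Sm_two_le {c : ℝ} (hc1 : 1 < c) {Q : ℕ} (hQ : 1 ≤ Q) (A B : Finset ℕ) (N : ℕ) (τ : ℝ) :
    Sm A B N (ph c Q) τ 2 ≤ (good A B c Q τ).card := by
  classical
  have hQR : (1 : ℝ) ≤ Q := by exact_mod_cast hQ
  have hgap : ∀ m n : ℕ, m < n → ph c Q m + 1 ≤ ph c Q n := by
    intro m n hmn
    unfold ph
    have h1 : (m : ℝ) + 1 ≤ n := by exact_mod_cast hmn
    have hm0 : (0 : ℝ) ≤ m := Nat.cast_nonneg m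
    have h2 := rpow_sub_le hc1.le (z := (Q : ℝ) + n) (m := (Q : ℝ) + m) (by linarith) (by linarith)
    have h3 : 1 ≤ ((Q : ℝ) + m) ^ (c - 1) := Real.one_le_rpow (by linarith) (by linarith)
    have h4 : c * ((Q : ℝ) + m) ^ (c - 1) * ((Q : ℝ) + m - ((Q : ℝ) + n)) ≤ -1 := by
      have h5 : 1 ≤ c * ((Q : ℝ) + m) ^ (c - 1) := by nlinarith
      nlinarith
    linarith
  have hone : ∀ a b : ℕ, ∑ n ∈ range N, w (2 * ((a : ℝ) + b + ph c Q n - τ)) ≤
      if (∃ n : ℕ, |(a : ℝ) + b + ((Q : ℝ) + n) ^ c - τ| < 1 / 2) then (1 : ℝ) else 0 := by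
    intro a b
    split_ifs with h
    · obtain ⟨n0, hn0⟩ := h
      have h1 : ∀ n ∈ range N, n ≠ n0 → w (2 * ((a : ℝ) + b + ph c Q n - τ)) = 0 := by
        intro n _ hn
        apply w_zero
        rw [abs_mul, abs_of_pos (by norm_num : (0 : ℝ) < 2)]
        have hn0' : |(a : ℝ) + b + ph c Q n0 - τ| < 1 / 2 := hn0
        rw [abs_lt] at hn0'
        rcases lt_or_gt_of_ne hn with h2 | h2
        · have h3 := hgap n n0 h2
          have h4 : (a : ℝ) + b + ph c Q n - τ ≤ -(1 / 2) := by linarith [hn0'.2]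
          rw [abs_of_neg (by linarith)]
          linarith
        · have h3 := hgap n0 n h2
          have h4 : 1 / 2 ≤ (a : ℝ) + b + ph c Q n - τ := by linarith [hn0'.1]
          rw [abs_of_pos (by linarith)]
          linarith
      by_cases hm : n0 ∈ range N
      · rw [sum_eq_single_of_mem n0 hm h1]
        exact w_le _
      · rw [sum_eq_zero (fun n hn => h1 n hn (fun h => hm (h ▸ hn)))]
        norm_num
    · apply le_of_eq
      apply sum_eq_zero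
      intro n _
      apply w_zero
      push Not at h
      have := h n
      rw [abs_mul, abs_of_pos (by norm_num : (0 : ℝ) < 2)]
      have e1 : (a : ℝ) + b + ph c Q n - τ = (a : ℝ) + b + ((Q : ℝ) + n) ^ c - τ := rfl
      rw [e1]
      linarith
  unfold Sm good
  rw [card_filter]
  push_cast
  rw [sum_product]
  exact sum_le_sum fun a _ => sum_le_sum fun b _ => hone a b

/-- two sets `A`, `B` and the powers `m ^ c`, `Q ≤ m < 8 Q`, under a bound for exponential sums -/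
theorem local2 {c : ℝ} (hc1 : 1 < c) (R : ℕ → ℝ) (hR0 : ∀ Q, 0 ≤ R Q)
    (hR : ∃ Q0 : ℕ, ∀ Q : ℕ, Q0 ≤ Q → ∀ (j : ℕ) (ξ : ℝ),
      ((8 * Q : ℕ) : ℝ) ^ (1 / 2 - c) ≤ |ξ| → |ξ| ≤ 4 ^ j →
      ‖Gs (7 * Q) (ph c Q) ξ‖ ≤ R Q * 2 ^ j) :
    ∃ Q0 : ℕ, ∀ Q : ℕ, Q0 ≤ Q → ∀ A B : Finset ℕ,
      51200 * c * R Q * ((8 * Q : ℕ) : ℝ) ^ (c - 1) ≤ Real.sqrt ((A.card : ℝ) * B.card) →
      ∀ τ : ℝ, (∀ a ∈ A, ∀ b ∈ B, 0 ≤ τ - a - b ∧ (Q : ℝ) ≤ (τ - a - b) ^ (1 / c) ∧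
        (τ - a - b) ^ (1 / c) ≤ 7 * Q) →
      ((8 * Q : ℕ) : ℝ) ^ (1 - c) / (64 * c) * ((A.card : ℝ) * B.card) ≤
        (good A B c Q τ).card := by
  have hc0 : 0 < c := by linarith
  obtain ⟨Q1, hQ1⟩ := hR
  obtain ⟨M1, hM1⟩ := ev_le' (4 * c) (1 / 8) (by norm_num)
  obtain ⟨M2, hM2⟩ := ev_le' 16 (7 / 8) (by norm_num)
  obtain ⟨M3, hM3⟩ := ev_le' (32 * c * 90) (1 / 4) (by norm_num)
  refine ⟨max (max Q1 M1) (max (max M2 M3) 1), ?_⟩
  intro Q hQ A B hAB τ hτ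
  have hQa : Q1 ≤ Q := le_of_max_le_left (le_of_max_le_left hQ)
  have hQb : M1 ≤ Q := le_of_max_le_right (le_of_max_le_left hQ)
  have hQc : M2 ≤ Q := le_of_max_le_left (le_of_max_le_left (le_of_max_le_right hQ))
  have hQd : M3 ≤ Q := le_of_max_le_right (le_of_max_le_left (le_of_max_le_right hQ))
  have hQe : 1 ≤ Q := le_of_max_le_right (le_of_max_le_right hQ)
  have hQR : (1 : ℝ) ≤ Q := by exact_mod_cast hQe
  have hsum := hQ1 Q hQa
  have hP1 := hM1 (8 * Q) (by omega)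
  have hP2 := hM2 (8 * Q) (by omega)
  have hP3 := hM3 (8 * Q) (by omega)
  set P : ℝ := ((8 * Q : ℕ) : ℝ) with hP
  have hPQ : P = 8 * Q := by rw [hP]; push_cast; ring
  have hP8 : 1 ≤ P := by rw [hPQ]; linarith
  have hPp : 0 < P := by linarith
  set ρ : ℝ := P ^ (7 / 8 - c) with hρ
  set ξ0 : ℝ := P ^ (1 / 2 - c) with hξ0
  set h : ℝ := P ^ (1 / 8 : ℝ) / (2 * c) with hh
  set s : ℝ := Real.sqrt ((A.card : ℝ) * B.card) with hs
  have hRQ : 0 ≤ R Q := hR0 Q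
  have hρ0 : 0 < ρ := by positivity
  have hξ00 : 0 < ξ0 := by positivity
  have hρ1 : ρ ≤ 1 := Real.rpow_le_one_of_one_le_of_nonpos hP8 (by linarith)
  have hh0 : 0 ≤ h := by positivity
  have hh2 : 2 ≤ h := by
    rw [hh, le_div_iff₀ (by positivity)]
    linarith
  have hs0 : 0 ≤ s := Real.sqrt_nonneg _
  have hAB0 : 0 ≤ (A.card : ℝ) * B.card := by positivity
  have hss : s * s = (A.card : ℝ) * B.card := Real.mul_self_sqrt hAB0
  have hS2 := Sm_two_le hc1 hQe A B (7 * Q) τ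
  have hh8 : h < Q := by
    have e1 : h ≤ P ^ (1 / 8 : ℝ) := by
      rw [hh, div_le_iff₀ (by positivity)]
      have : 0 ≤ P ^ (1 / 8 : ℝ) := by positivity
      nlinarith
    have e2 : P ^ (1 / 8 : ℝ) * P ^ (7 / 8 : ℝ) = P := by
      rw [← Real.rpow_add hPp]
      norm_num
    have e3 : 0 < P ^ (1 / 8 : ℝ) := by positivity
    have e4 : P ^ (1 / 8 : ℝ) * 16 ≤ P := by
      calc P ^ (1 / 8 : ℝ) * 16 ≤ P ^ (1 / 8 : ℝ) * P ^ (7 / 8 : ℝ) := by gcongr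
        _ = P := e2
    rw [hPQ] at e4
    rw [hPQ] at e1 e3
    linarith
  have hlow := Sm_ge (τ := τ) hc1.le hQe hh0 hρ0.le A B
    (fun a ha b hb => by
      obtain ⟨h4, h5, h6⟩ := hτ a ha b hb
      exact ⟨h4, h5, by linarith⟩)
    (by
      rw [← hPQ, hh, hρ]
      have e1 : P ^ (7 / 8 - c) * (c * P ^ (c - 1) * (P ^ (1 / 8 : ℝ) / (2 * c))) =
          (P ^ (7 / 8 - c) * P ^ (c - 1) * P ^ (1 / 8 : ℝ)) / 2 := by
        field_simp
      rw [e1, ← Real.rpow_add hPp, ← Real.rpow_add hPp]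
      have e2 : 7 / 8 - c + (c - 1) + 1 / 8 = 0 := by ring
      rw [e2, Real.rpow_zero])
  -- the cut-off for large frequencies
  obtain ⟨J, hJ⟩ : ∃ J : ℕ, P ^ (c + 1 / 4) ≤ (4 : ℝ) ^ J := by
    obtain ⟨J, hJ⟩ := pow_unbounded_of_one_lt (P ^ (c + 1 / 4)) (by norm_num : (1 : ℝ) < 4)
    exact ⟨J, hJ.le⟩
  have hcmp := compare2 A B (7 * Q) (ph c Q) τ hρ0 hρ1 hξ00 hRQ J hsum
  have hN : ((7 * Q : ℕ) : ℝ) ≤ P := by
    rw [hPQ]
    push_cast
    linarith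
  have hN0 : (0 : ℝ) ≤ ((7 * Q : ℕ) : ℝ) := Nat.cast_nonneg _
  have hpi := Real.pi_pos
  have hpi2 : Real.pi < 3.15 := Real.pi_lt_d2
  -- first term
  have t1 : 8 * (ξ0 / ρ) ^ 2 * ((7 * Q : ℕ) : ℝ) * (A.card * B.card) * (Real.pi * ξ0) ≤
      26 * P ^ (3 / 4 - c) * (A.card * B.card) := by
    have e1 : (ξ0 / ρ) ^ 2 = P ^ (-(3 / 4) : ℝ) := by
      rw [hξ0, hρ, ← Real.rpow_sub hPp, ← Real.rpow_natCast, ← Real.rpow_mul hPp.le]
      congr 1
      push_cast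
      ring
    have e2 : P ^ (3 / 4 - c) = P ^ (-(3 / 4) : ℝ) * ξ0 * P := by
      nth_rewrite 3 [← Real.rpow_one P]
      rw [hξ0, ← Real.rpow_add hPp, ← Real.rpow_add hPp]
      congr 1
      ring
    rw [e1, e2]
    have e3 : 0 < P ^ (-(3 / 4) : ℝ) := by positivity
    calc 8 * P ^ (-(3 / 4) : ℝ) * ((7 * Q : ℕ) : ℝ) * (A.card * B.card) * (Real.pi * ξ0)
        ≤ 8 * P ^ (-(3 / 4) : ℝ) * P * (A.card * B.card) * (3.25 * ξ0) := by
          gcongr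
          linarith
      _ = 26 * (P ^ (-(3 / 4) : ℝ) * ξ0 * P) * (A.card * B.card) := by ring
  -- second term
  have hJ0 : (0 : ℝ) < 4 ^ J := by positivity
  have t3 : 20 / ((4 : ℝ) ^ J) ^ 2 * ((7 * Q : ℕ) : ℝ) * (A.card * B.card) * (Real.pi * 4 ^ J) ≤
      64 * P ^ (3 / 4 - c) * (A.card * B.card) := by
    have e2 : P ^ (3 / 4 - c) = (P ^ (c + 1 / 4))⁻¹ * P := by
      nth_rewrite 3 [← Real.rpow_one P]
      rw [← Real.rpow_neg hPp.le, ← Real.rpow_add hPp]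
      congr 1
      ring
    have e3 : ((4 : ℝ) ^ J)⁻¹ ≤ (P ^ (c + 1 / 4))⁻¹ := inv_anti₀ (by positivity) hJ
    calc 20 / ((4 : ℝ) ^ J) ^ 2 * ((7 * Q : ℕ) : ℝ) * (A.card * B.card) * (Real.pi * 4 ^ J)
        ≤ 20 / ((4 : ℝ) ^ J) ^ 2 * P * (A.card * B.card) * (3.2 * 4 ^ J) := by
          gcongr
          linarith
      _ = 64 * (((4 : ℝ) ^ J)⁻¹ * P) * (A.card * B.card) := by
          field_simp
          ring
      _ ≤ 64 * ((P ^ (c + 1 / 4))⁻¹ * P) * (A.card * B.card) := by gcongr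
      _ = _ := by rw [← e2]
  have t4 : P ^ (1 - c) / (8 * c) * (s * s) ≤ ρ * Sm A B (7 * Q) (ph c Q) τ ρ := by
    have e1 : P ^ (1 - c) = ρ * P ^ (1 / 8 : ℝ) := by
      rw [hρ, ← Real.rpow_add hPp]
      congr 1
      ring
    calc P ^ (1 - c) / (8 * c) * (s * s) = ρ * ((A.card : ℝ) * B.card * (h / 4)) := by
          rw [e1, hss, hh]
          field_simp
          ring
      _ ≤ ρ * ((A.card : ℝ) * B.card * ((h - 1) / 2)) := by
          have e2 : h / 4 ≤ (h - 1) / 2 := by linarith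
          exact mul_le_mul_of_nonneg_left (mul_le_mul_of_nonneg_left e2 hAB0) hρ0.le
      _ ≤ _ := by gcongr
  have t5 : 90 * P ^ (3 / 4 - c) ≤ P ^ (1 - c) / (32 * c) := by
    rw [le_div_iff₀ (by positivity)]
    have e1 : P ^ (1 - c) = P ^ (3 / 4 - c) * P ^ (1 / 4 : ℝ) := by
      rw [← Real.rpow_add hPp]
      congr 1
      ring
    rw [e1]
    have e2 : 0 < P ^ (3 / 4 - c) := by positivity
    calc 90 * P ^ (3 / 4 - c) * (32 * c) = P ^ (3 / 4 - c) * (32 * c * 90) := by ring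
      _ ≤ P ^ (3 / 4 - c) * P ^ (1 / 4 : ℝ) := by gcongr
  have t6 : 1600 * R Q * s ≤ P ^ (1 - c) / (32 * c) * (s * s) := by
    have e2 : P ^ (1 - c) * P ^ (c - 1) = 1 := by
      rw [← Real.rpow_add hPp]
      have : 1 - c + (c - 1) = 0 := by ring
      rw [this, Real.rpow_zero]
    have e3 : 0 < P ^ (1 - c) := by positivity
    have e4 : 1600 * R Q ≤ P ^ (1 - c) / (32 * c) * s := by
      calc 1600 * R Q = P ^ (1 - c) / (32 * c) * (51200 * c * R Q * P ^ (c - 1)) := by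
            have : P ^ (1 - c) / (32 * c) * (51200 * c * R Q * P ^ (c - 1)) =
                1600 * R Q * (P ^ (1 - c) * P ^ (c - 1)) := by
              field_simp
              ring
            rw [this, e2, mul_one]
        _ ≤ _ := by gcongr
    calc 1600 * R Q * s ≤ P ^ (1 - c) / (32 * c) * s * s := by gcongr
      _ = _ := by ring
  have t7 : 26 * P ^ (3 / 4 - c) * (A.card * B.card) + 64 * P ^ (3 / 4 - c) * (A.card * B.card) ≤
      P ^ (1 - c) / (32 * c) * (s * s) := by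
    rw [hss]
    calc _ = 90 * P ^ (3 / 4 - c) * (A.card * B.card) := by ring
      _ ≤ _ := by gcongr
  have t8 : P ^ (1 - c) / (8 * c) * (s * s) = 4 * (P ^ (1 - c) / (32 * c) * (s * s)) := by
    field_simp
    ring
  have t9 : P ^ (1 - c) / (64 * c) * (s * s) = (P ^ (1 - c) / (32 * c) * (s * s)) / 2 := by
    field_simp
    ring
  have t10 : 0 ≤ P ^ (1 - c) / (32 * c) * (s * s) := by positivity
  rw [← hss, t9]
  linarith

end Pool.Agent.H24.PS
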