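import Mathlib
import Pool.Agent.H24.PS.Loc2
import Pool.Agent.H24.PS.Grd

set_option autoImplicit false

/-!
# Dense sets, sums of `k`-th powers and one number `⌊y ^ c⌋`
-/

namespace Pool.Agent.H24.PS
open Finset Filter

open Classical in
/-- the pairs `(a, b)` for which `n - a - b` is a number `⌊y ^ c⌋` with `4 y ≥ n ^ (1 / c)` -/
noncomputable def pairs (A B : Finset ℕ) (c : ℝ) (n : ℕ) : Finset (ℕ × ℕ) :=
  (A ×ˢ B).filter fun p => ∃ y : ℕ, n = p.1 + p.2 + ⌊(y : ℝ) ^ c⌋₊ ∧ (n : ℝ) ≤ (4 * (y : ℝ)) ^ c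

/-- two dense sets and one number `⌊y ^ c⌋` -/
theorem sets2 {c : ℝ} (hc1 : 1 < c) {ω C : ℝ} (hω : 0 ≤ ω) (hC : 0 < C)
    (hG : ∃ Q0 : ℕ, ∀ Q : ℕ, Q0 ≤ Q → ∀ (j : ℕ) (ξ : ℝ),
      ((8 * Q : ℕ) : ℝ) ^ (1 / 2 - c) ≤ |ξ| → |ξ| ≤ 4 ^ j →
      ‖Gs (7 * Q) (ph c Q) ξ‖ ≤ C * ((8 * Q : ℕ) : ℝ) ^ ω * 2 ^ j) :
    ∃ C' κ : ℝ, 0 < C' ∧ 0 < κ ∧ ∃ n0 : ℕ, ∀ n : ℕ, n0 ≤ n → ∀ A B : Finset ℕ,
      (∀ a ∈ A, (4 * a : ℝ) ≤ n) → (∀ b ∈ B, (4 * b : ℝ) ≤ n) →
      C' * (n : ℝ) ^ (2 * (ω + c - 1) / c) ≤ (A.card : ℝ) * B.card →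
      κ * (n : ℝ) ^ (1 / c - 1) * ((A.card : ℝ) * B.card) ≤ (pairs A B c n).card := by
  classical
  have hc0 : 0 < c := by linarith
  obtain ⟨Q0, hQ0⟩ := local2 hc1 (fun Q => C * ((8 * Q : ℕ) : ℝ) ^ ω) (fun Q => by positivity) hG
  set D : ℝ := 51200 * c * C * 4 ^ (ω + c - 1) with hD
  obtain ⟨M2, hM2⟩ := ev_le' (max 5 (2 * (Q0 + 1))) (1 / c) (by positivity)
  refine ⟨D ^ 2, 4 ^ (1 - c) / (64 * c), by positivity, by positivity, max M2 1, ?_⟩
  intro n hn A B hA hB hAB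
  have hn2 := hM2 n ((le_max_left _ _).trans hn)
  have hn3 : 1 ≤ n := (le_max_right _ _).trans hn
  have hnR : (1 : ℝ) ≤ n := by exact_mod_cast hn3
  have hnp : (0 : ℝ) < n := by linarith
  set X : ℝ := (n : ℝ) ^ (1 / c) with hX
  have hX5 : 5 ≤ X := (le_max_left _ _).trans hn2
  have hXQ : 2 * ((Q0 : ℝ) + 1) ≤ X := (le_max_right _ _).trans hn2
  have hXc : X ^ c = n := by
    rw [hX, ← Real.rpow_mul hnp.le, one_div, inv_mul_cancel₀ hc0.ne', Real.rpow_one]
  set Q : ℕ := ⌊X / 2⌋₊ with hQ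
  have hQle : (Q : ℝ) ≤ X / 2 := Nat.floor_le (by positivity)
  have hQlt : X / 2 < Q + 1 := Nat.lt_floor_add_one _
  have hQQ : Q0 ≤ Q := by
    apply Nat.le_floor
    linarith
  have hQ1 : (1 : ℝ) ≤ Q := by linarith
  have hPX : ((8 * Q : ℕ) : ℝ) ≤ 4 * X := by
    push_cast
    linarith
  have hPp : 0 < ((8 * Q : ℕ) : ℝ) := by
    push_cast
    linarith
  have hmain := hQ0 Q hQQ A B (by
      apply Real.le_sqrt_of_sq_le
      refine le_trans ?_ hAB
      have e3 : (4 * X) ^ (ω + c - 1) = 4 ^ (ω + c - 1) * (n : ℝ) ^ ((ω + c - 1) / c) := by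
        rw [Real.mul_rpow (by norm_num) (by positivity), hX, ← Real.rpow_mul hnp.le]
        congr 2
        field_simp
      have e4 : 51200 * c * (C * ((8 * Q : ℕ) : ℝ) ^ ω) * ((8 * Q : ℕ) : ℝ) ^ (c - 1) ≤
          D * (n : ℝ) ^ ((ω + c - 1) / c) := by
        calc 51200 * c * (C * ((8 * Q : ℕ) : ℝ) ^ ω) * ((8 * Q : ℕ) : ℝ) ^ (c - 1)
            = 51200 * c * C * (((8 * Q : ℕ) : ℝ) ^ ω * ((8 * Q : ℕ) : ℝ) ^ (c - 1)) := by ring
          _ = 51200 * c * C * ((8 * Q : ℕ) : ℝ) ^ (ω + c - 1) := by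
              rw [← Real.rpow_add hPp]
              congr 2
              ring
          _ ≤ 51200 * c * C * (4 * X) ^ (ω + c - 1) := by
              have := Real.rpow_le_rpow hPp.le hPX (by linarith : 0 ≤ ω + c - 1)
              gcongr
          _ = _ := by rw [e3, hD]; ring
      have e5 : (n : ℝ) ^ (2 * (ω + c - 1) / c) = ((n : ℝ) ^ ((ω + c - 1) / c)) ^ 2 := by
        rw [← Real.rpow_natCast, ← Real.rpow_mul hnp.le]
        congr 1
        push_cast
        ring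
      rw [e5, ← mul_pow]
      exact pow_le_pow_left₀ (by positivity) e4 2)
    ((n : ℝ) + 1 / 2) (by
      intro a ha b hb
      have h1 := hA a ha
      have h2 := hB b hb
      have h3 : (0 : ℝ) ≤ a := Nat.cast_nonneg a
      have h4 : (0 : ℝ) ≤ b := Nat.cast_nonneg b
      have h5 : (n : ℝ) / 2 ≤ (n : ℝ) + 1 / 2 - a - b := by linarith
      have h6 : (n : ℝ) + 1 / 2 - a - b ≤ 2 * n := by linarith
      have h7 : 0 ≤ (n : ℝ) + 1 / 2 - a - b := by linarith
      have h8 : (2 : ℝ) ≤ 2 ^ c := by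
        calc (2 : ℝ) = 2 ^ (1 : ℝ) := (Real.rpow_one _).symm
          _ ≤ 2 ^ c := Real.rpow_le_rpow_of_exponent_le (by norm_num) hc1.le
      refine ⟨h7, ?_, ?_⟩
      · have h9 : (X / 2) ^ c ≤ (n : ℝ) + 1 / 2 - a - b := by
          rw [Real.div_rpow (by positivity) (by norm_num), hXc]
          refine le_trans ?_ h5
          gcongr
        have h10 : X / 2 ≤ ((n : ℝ) + 1 / 2 - a - b) ^ (1 / c) := by
          have h11 := Real.rpow_le_rpow (by positivity) h9 (by positivity : (0 : ℝ) ≤ 1 / c)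
          rwa [← Real.rpow_mul (by positivity), mul_one_div_cancel hc0.ne', Real.rpow_one] at h11
        linarith
      · have h9 : (n : ℝ) + 1 / 2 - a - b ≤ (2 * X) ^ c := by
          rw [Real.mul_rpow (by norm_num) (by positivity), hXc]
          refine h6.trans ?_
          gcongr
        have h10 : ((n : ℝ) + 1 / 2 - a - b) ^ (1 / c) ≤ 2 * X := by
          have h11 := Real.rpow_le_rpow h7 h9 (by positivity : (0 : ℝ) ≤ 1 / c)
          rwa [← Real.rpow_mul (by positivity), mul_one_div_cancel hc0.ne', Real.rpow_one] at h11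
        linarith)
  have hsub : good A B c Q ((n : ℝ) + 1 / 2) ⊆ pairs A B c n := by
    intro p hp
    unfold good at hp
    unfold pairs
    rw [mem_filter] at hp ⊢
    obtain ⟨hp1, m, hm⟩ := hp
    refine ⟨hp1, Q + m, ?_, ?_⟩
    · rw [mem_product] at hp1
      have h1 := hA p.1 hp1.1
      have h2 := hB p.2 hp1.2
      have h3 : p.1 + p.2 ≤ n := by
        have : (p.1 : ℝ) + p.2 ≤ n := by
          have : (0 : ℝ) ≤ n := hnp.le
          linarith
        exact_mod_cast this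
      have h4 : ⌊((Q + m : ℕ) : ℝ) ^ c⌋₊ = n - (p.1 + p.2) := by
        rw [Nat.floor_eq_iff (by positivity)]
        rw [Nat.cast_sub h3]
        push_cast
        rw [abs_lt] at hm
        constructor <;> linarith [hm.1, hm.2]
      rw [h4]
      omega
    · rw [← hXc]
      apply Real.rpow_le_rpow (by positivity) _ hc0.le
      push_cast
      have : (0 : ℝ) ≤ m := Nat.cast_nonneg m
      linarith
  have hcard : ((good A B c Q ((n : ℝ) + 1 / 2)).card : ℝ) ≤ (pairs A B c n).card := by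
    exact_mod_cast card_le_card hsub
  refine le_trans ?_ (hmain.trans hcard)
  have e6 : (4 * X) ^ (1 - c) = 4 ^ (1 - c) * (n : ℝ) ^ (1 / c - 1) := by
    rw [Real.mul_rpow (by norm_num) (by positivity), hX, ← Real.rpow_mul hnp.le]
    congr 2
    field_simp
  have e7 : (4 * X) ^ (1 - c) ≤ ((8 * Q : ℕ) : ℝ) ^ (1 - c) :=
    Real.rpow_le_rpow_of_nonpos hPp hPX (by linarith)
  calc 4 ^ (1 - c) / (64 * c) * (n : ℝ) ^ (1 / c - 1) * ((A.card : ℝ) * B.card)
      = (4 * X) ^ (1 - c) / (64 * c) * ((A.card : ℝ) * B.card) := by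
        rw [e6]
        ring
    _ ≤ _ := by gcongr

/-- sums of `s` `k`-th powers with bases in `𝓑` and one number `⌊y ^ c⌋` -/
theorem waring2 {c : ℝ} (hc1 : 1 < c) {ω C : ℝ} (hω : 0 ≤ ω) (hC : 0 < C)
    (hG : ∃ Q0 : ℕ, ∀ Q : ℕ, Q0 ≤ Q → ∀ (j : ℕ) (ξ : ℝ),
      ((8 * Q : ℕ) : ℝ) ^ (1 / 2 - c) ≤ |ξ| → |ξ| ≤ 4 ^ j →
      ‖Gs (7 * Q) (ph c Q) ξ‖ ≤ C * ((8 * Q : ℕ) : ℝ) ^ ω * 2 ^ j)
    {𝓑 : Set ℕ} (h𝓑 : ExpOne 𝓑) {k s : ℕ} (hk : 2 ≤ k)
    (hs : (1 - 1 / (k : ℝ)) ^ (s / 2) < (1 - ω) / c) :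
    ∃ n0 : ℕ, ∀ n : ℕ, n0 ≤ n → ∃ (x : Fin s → ℕ) (y : ℕ), (∀ i, x i ∈ 𝓑) ∧
      n = ∑ i, x i ^ k + ⌊(y : ℝ) ^ c⌋₊ ∧ (n : ℝ) ≤ (4 * (y : ℝ)) ^ c := by
  classical
  have hkR : (2 : ℝ) ≤ k := by exact_mod_cast hk
  have hc0 : 0 < c := by linarith
  set u : ℕ := s / 2 with hu
  set v : ℕ := s - u with hv
  have huv : u ≤ v := by omega
  have huvs : u + v = s := by omega
  set q : ℝ := (1 - 1 / (k : ℝ)) ^ u with hq
  have hq0 : 0 ≤ q := by
    have h1 : 0 ≤ 1 - 1 / (k : ℝ) := by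
      rw [sub_nonneg, div_le_one (by linarith)]
      linarith
    positivity
  -- the parameters
  set η : ℝ := ((1 - ω) / c - q) / 2 with hη
  have hη0 : 0 < η := by
    rw [hη]
    linarith
  obtain ⟨C', κ, hC', hκ, n1, hn1⟩ := sets2 hc1 hω hC hG
  obtain ⟨X1, hX1⟩ := greedy h𝓑 hk u (η / 2) (by positivity)
  obtain ⟨X2, hX2⟩ := greedy h𝓑 hk v (η / 2) (by positivity)
  obtain ⟨M1, hM1⟩ := ev_le' (4 ^ (1 / (k : ℝ)) * max (max X1 X2) 1) (1 / (k : ℝ)) (by positivity)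
  obtain ⟨M2, hM2⟩ := ev_le' (16 * C') η hη0
  refine ⟨max (max n1 M1) (max M2 1), ?_⟩
  intro n hn
  have ha : n1 ≤ n := (le_max_left _ _).trans ((le_max_left _ _).trans hn)
  have hb := hM1 n ((le_max_right _ _).trans ((le_max_left _ _).trans hn))
  have hd := hM2 n ((le_max_left _ _).trans ((le_max_right _ _).trans hn))
  have he : 1 ≤ n := (le_max_right _ _).trans ((le_max_right _ _).trans hn)
  have hnR : (1 : ℝ) ≤ n := by exact_mod_cast he
  have hnp : (0 : ℝ) < n := by linarith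
  set X : ℝ := ((n : ℝ) / 4) ^ (1 / (k : ℝ)) with hX
  have hX0 : max (max X1 X2) 1 ≤ X := by
    rw [hX, Real.div_rpow hnp.le (by norm_num), le_div_iff₀ (by positivity)]
    linarith
  have hXa : X1 ≤ X := (le_max_left _ _).trans ((le_max_left _ _).trans hX0)
  have hXb : X2 ≤ X := (le_max_right _ _).trans ((le_max_left _ _).trans hX0)
  have hXc : 1 ≤ X := (le_max_right _ _).trans hX0
  have hXk : X ^ k = (n : ℝ) / 4 := by
    rw [hX, ← Real.rpow_natCast, ← Real.rpow_mul (by positivity), one_div,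
      inv_mul_cancel₀ (by positivity), Real.rpow_one]
  obtain ⟨A, hA1, hA2, hA3⟩ := hX1 X hXa
  obtain ⟨B, hB1, hB2, hB3⟩ := hX2 X hXb
  have e1 : X ^ (2 * Ex k u - η) ≤ (A.card : ℝ) * B.card := by
    calc X ^ (2 * Ex k u - η) = X ^ (Ex k u - η / 2) * X ^ (Ex k u - η / 2) := by
          rw [← Real.rpow_add (by linarith)]
          congr 1
          ring
      _ ≤ X ^ (Ex k u - η / 2) * X ^ (Ex k v - η / 2) := by
          apply mul_le_mul_of_nonneg_left _ (by positivity)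
          apply Real.rpow_le_rpow_of_exponent_le hXc
          have := Ex_mono (k := k) (by omega) huv
          linarith
      _ ≤ _ := by gcongr
  have hcount := hn1 n ha A B
    (fun a ha => by have := hA1 a ha; rw [hXk] at this; linarith)
    (fun b hb => by have := hB1 b hb; rw [hXk] at this; linarith)
    (by
      refine le_trans ?_ e1
      have e2 : X ^ (2 * Ex k u - η) = ((n : ℝ) / 4) ^ (2 - 2 * q - η / k) := by
        rw [hX, ← Real.rpow_mul (by positivity)]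
        congr 1
        unfold Ex
        rw [← hq]
        field_simp
      rw [e2, Real.div_rpow hnp.le (by norm_num), le_div_iff₀ (by positivity)]
      have e3 : (4 : ℝ) ^ (2 - 2 * q - η / k) ≤ 16 := by
        calc (4 : ℝ) ^ (2 - 2 * q - η / k) ≤ 4 ^ (2 : ℝ) := by
              apply Real.rpow_le_rpow_of_exponent_le (by norm_num)
              have : 0 < η / k := by positivity
              linarith
          _ = 16 := by norm_num
      have e4 : η / k ≤ η := by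
        apply div_le_self hη0.le
        linarith
      have e5 : 2 * (ω + c - 1) / c = 2 - 2 * ((1 - ω) / c) := by
        field_simp
        ring
      rw [e5]
      calc C' * (n : ℝ) ^ (2 - 2 * ((1 - ω) / c)) * 4 ^ (2 - 2 * q - η / k)
          ≤ C' * (n : ℝ) ^ (2 - 2 * ((1 - ω) / c)) * 16 := by gcongr
        _ = (16 * C') * (n : ℝ) ^ (2 - 2 * ((1 - ω) / c)) := by ring
        _ ≤ (n : ℝ) ^ η * (n : ℝ) ^ (2 - 2 * ((1 - ω) / c)) := by gcongr
        _ = (n : ℝ) ^ (η + (2 - 2 * ((1 - ω) / c))) := by rw [← Real.rpow_add hnp]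
        _ ≤ (n : ℝ) ^ (2 - 2 * q - η / k) := by
            apply Real.rpow_le_rpow_of_exponent_le hnR
            have : (1 - ω) / c = 2 * η + q := by rw [hη]; ring
            rw [this]
            linarith)
  have hpos : 0 < (A.card : ℝ) * B.card := lt_of_lt_of_le (by positivity) e1
  have hcard : 0 < (pairs A B c n).card := by
    have : (0 : ℝ) < (pairs A B c n).card := lt_of_lt_of_le (by positivity) hcount
    exact_mod_cast this
  obtain ⟨p, hp⟩ := card_pos.1 hcard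
  unfold pairs at hp
  rw [mem_filter, mem_product] at hp
  obtain ⟨⟨haA, hbB⟩, y, hy, hy4⟩ := hp
  obtain ⟨f, hf1, hf2⟩ := hA2 _ haA
  obtain ⟨g', hg1, hg2'⟩ := hB2 _ hbB
  refine ⟨fun i => Fin.append f g' (Fin.cast huvs.symm i), y, ?_, ?_, hy4⟩
  · have e0 : ∀ i : Fin (u + v), Fin.append f g' i ∈ 𝓑 := by
      intro i
      refine Fin.addCases (fun j => ?_) (fun j => ?_) i
      · rw [Fin.append_left]; exact hf1 j
      · rw [Fin.append_right]; exact hg1 j
    exact fun i => e0 _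
  · rw [hy, hf2, hg2']
    congr 1
    have e1 : ∑ i : Fin s, Fin.append f g' (Fin.cast huvs.symm i) ^ k =
        ∑ i : Fin (u + v), Fin.append f g' i ^ k :=
      Fintype.sum_equiv (finCongr huvs.symm) _ _ (fun i => rfl)
    rw [e1, Fin.sum_univ_add]
    simp only [Fin.append_left, Fin.append_right]

end Pool.Agent.H24.PS
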