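import Mathlib
import Pool.Agent.H24.PS.Fin2

set_option autoImplicit false

/-!
# The primes have exponent one
-/

namespace Pool.Agent.H24.PS
open Finset Filter

theorem expOne_primes : ExpOne {p | p.Prime} := by
  intro ε₀ hε₀
  set ε : ℝ := min ε₀ 1 with hε
  have hε0 : 0 < ε := lt_min hε₀ one_pos
  have hε1 : ε ≤ ε₀ := min_le_left _ _
  obtain ⟨M1, hM1⟩ := ev_le' (8 / ε) (ε / 2) (by positivity)
  refine ⟨max M1 64, ?_⟩
  intro x hx
  have h1 := hM1 x (le_of_max_le_left hx)
  have h2 : 64 ≤ x := le_of_max_le_right hx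
  have hxR : (64 : ℝ) ≤ x := by exact_mod_cast h2
  have hxp : (0 : ℝ) < x := by linarith
  have hset : ({b | b ∈ {p : ℕ | p.Prime} ∧ b ≤ x} : Set ℕ).ncard = Nat.primeCounting x := by
    rw [← Nat.primesLE_card_eq_primeCounting, ← Set.ncard_coe_finset]
    congr 1
    ext b
    simp only [Set.mem_ofPred_eq, mem_coe, Nat.mem_primesLE]
    exact and_comm
  rw [hset]
  have h3 := Chebyshev.pi_ge x
  refine le_trans ?_ h3
  have hlog : 0 < Real.log x := Real.log_pos (by linarith)
  rw [le_div_iff₀ hlog]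
  -- `log (x + 1) ≤ x / 8`
  have h4 : Real.log (x + 1) ≤ x / 8 := by
    have e1 : Real.log (x + 1) = 2 * Real.log (Real.sqrt (x + 1)) := by
      rw [Real.log_sqrt (by linarith)]
      ring
    have e2 : Real.log (Real.sqrt (x + 1)) ≤ Real.sqrt (x + 1) / 4 + 1 := by
      have e3 : Real.log (Real.sqrt (x + 1) / 4) ≤ Real.sqrt (x + 1) / 4 - 1 :=
        Real.log_le_sub_one_of_pos (by positivity)
      have e4 : Real.log (Real.sqrt (x + 1)) = Real.log (Real.sqrt (x + 1) / 4) + Real.log 4 := by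
        rw [← Real.log_mul (by positivity) (by norm_num)]
        congr 1
        field_simp
      have e5 : Real.log 4 ≤ 2 := by
        have : Real.log 4 = 2 * Real.log 2 := by
          rw [show (4 : ℝ) = 2 ^ 2 by norm_num, Real.log_pow]
          norm_num
        have := Real.log_two_lt_d9
        linarith
      linarith
    have e6 : Real.sqrt (x + 1) ≤ (x + 1 + 64) / 16 := by
      rw [Real.sqrt_le_left (by positivity)]
      nlinarith [sq_nonneg ((x : ℝ) + 1 - 64)]
    rw [e1]
    linarith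
  have h5 : Real.log x ≤ 2 / ε * (x : ℝ) ^ (ε / 2) := by
    have := Real.log_le_rpow_div hxp.le (show 0 < ε / 2 by positivity)
    calc Real.log x ≤ (x : ℝ) ^ (ε / 2) / (ε / 2) := this
      _ = _ := by field_simp
  have h6 := Real.log_two_gt_d9
  have h7 : (x : ℝ) / 4 ≤ x * Real.log 2 - Real.log (x + 1) := by nlinarith
  refine le_trans ?_ h7
  calc (x : ℝ) ^ (1 - ε₀) * Real.log x ≤ (x : ℝ) ^ (1 - ε) * (2 / ε * (x : ℝ) ^ (ε / 2)) := by
        apply mul_le_mul _ h5 hlog.le (by positivity)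
        apply Real.rpow_le_rpow_of_exponent_le (by linarith)
        linarith
    _ = 2 / ε * (x : ℝ) ^ (1 - ε / 2) := by
        have : (x : ℝ) ^ (1 - ε / 2) = (x : ℝ) ^ (1 - ε) * (x : ℝ) ^ (ε / 2) := by
          rw [← Real.rpow_add hxp]
          congr 1
          ring
        rw [this]
        ring
    _ ≤ (x : ℝ) / 4 := by
        have e1 : (x : ℝ) = (x : ℝ) ^ (1 - ε / 2) * (x : ℝ) ^ (ε / 2) := by
          rw [← Real.rpow_add hxp]
          have : 1 - ε / 2 + ε / 2 = 1 := by ring
          rw [this, Real.rpow_one]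
        have e2 : 0 < (x : ℝ) ^ (1 - ε / 2) := by positivity
        have e3 : 8 / ε * (x : ℝ) ^ (1 - ε / 2) ≤ x := by
          nth_rewrite 2 [e1]
          rw [mul_comm]
          gcongr
        have e4 : 2 / ε * (x : ℝ) ^ (1 - ε / 2) = (8 / ε * (x : ℝ) ^ (1 - ε / 2)) / 4 := by ring
        rw [e4]
        gcongr

end Pool.Agent.H24.PS
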