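import Mathlib
import Pool.Agent.H24.PS.Fin2
import Pool.Agent.H24.PS.Pri

set_option autoImplicit false

/-!
# The numbers of summands
-/

namespace Pool.Agent.H24.PS
open Finset Filter

/-- the number of summands, any `c` -/
lemma numeric2 {c : ℝ} (hc1 : 1 < c) {K : ℕ} (hK : (K : ℝ) ≤ c + 1 / 2) (hK0 : 1 ≤ K)
    {k s : ℕ} (hk : 2 ≤ k) (hs : (3 / 2 * c + 19) * k ≤ s) :
    (1 - 1 / (k : ℝ)) ^ (s / 2) < 1 / (32 * c * K * 2 ^ K) := by
  have hkR : (2 : ℝ) ≤ k := by exact_mod_cast hk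
  have hKR : (1 : ℝ) ≤ K := by exact_mod_cast hK0
  have h0 : 0 ≤ 1 - 1 / (k : ℝ) := by
    rw [sub_nonneg, div_le_one (by linarith)]
    linarith
  have h1 : (1 - 1 / (k : ℝ)) ≤ Real.exp (-(1 / k)) := by
    have := Real.add_one_le_exp (-(1 / (k : ℝ)))
    linarith
  have h2 : (1 - 1 / (k : ℝ)) ^ (s / 2) ≤ Real.exp (-(0.75 * c + 9.25)) := by
    calc (1 - 1 / (k : ℝ)) ^ (s / 2) ≤ Real.exp (-(1 / k)) ^ (s / 2) := by gcongr
      _ = Real.exp ((s / 2 : ℕ) * (-(1 / k))) := by rw [← Real.exp_nat_mul]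
      _ ≤ Real.exp (-(0.75 * c + 9.25)) := by
          apply Real.exp_le_exp.2
          have h3 : (s : ℝ) / 2 - 1 / 2 ≤ (s / 2 : ℕ) := by
            have h4 : s ≤ 2 * (s / 2) + 1 := by omega
            have h5 : (s : ℝ) ≤ 2 * (s / 2 : ℕ) + 1 := by exact_mod_cast h4
            linarith
          rw [mul_neg, neg_le_neg_iff, mul_one_div, le_div_iff₀ (by linarith)]
          refine le_trans ?_ h3
          nlinarith
  have hpos : 0 < 32 * c * K * 2 ^ K := by positivity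
  refine lt_of_le_of_lt h2 ?_
  rw [Real.exp_neg, inv_eq_one_div]
  apply one_div_lt_one_div_of_lt hpos
  have e1 : (2 : ℝ) ^ K ≤ Real.exp (0.69315 * c + 0.34658) := by
    calc (2 : ℝ) ^ K = Real.exp (K * Real.log 2) := by
          rw [Real.exp_nat_mul, Real.exp_log (by norm_num)]
      _ ≤ _ := by
          apply Real.exp_le_exp.2
          have h3 := Real.log_two_lt_d9
          have h4 : 0 < Real.log 2 := Real.log_pos (by norm_num)
          calc (K : ℝ) * Real.log 2 ≤ (c + 1 / 2) * 0.69315 := by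
                gcongr
                linarith
            _ ≤ _ := by linarith
  have e2 : c + 0.25 ≤ 40 * Real.exp ((c + 0.25) / 40 - 1) := by
    have := Real.add_one_le_exp ((c + 0.25) / 40 - 1)
    linarith
  have e3 : c * K ≤ (c + 0.25) * (c + 0.25) := by nlinarith
  have e4 : c * K ≤ 1600 * Real.exp ((c + 0.25) / 20 - 2) := by
    calc c * K ≤ (c + 0.25) * (c + 0.25) := e3
      _ ≤ (40 * Real.exp ((c + 0.25) / 40 - 1)) * (40 * Real.exp ((c + 0.25) / 40 - 1)) := by gcongr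
      _ = 1600 * (Real.exp ((c + 0.25) / 40 - 1) * Real.exp ((c + 0.25) / 40 - 1)) := by ring
      _ = _ := by
          rw [← Real.exp_add]
          congr 2
          ring
  have e5 : (51200 : ℝ) < Real.exp (10.89) := by
    have h3 := Real.exp_one_gt_d9
    have h4 : Real.exp 10.89 = Real.exp 1 ^ 11 * Real.exp (-0.11) := by
      rw [← Real.exp_nat_mul, ← Real.exp_add]
      norm_num
    have h5 : (0.89 : ℝ) ≤ Real.exp (-0.11) := by
      have := Real.add_one_le_exp (-0.11 : ℝ)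
      linarith
    rw [h4]
    have h6 : (2.7182818283 : ℝ) ^ 11 ≤ Real.exp 1 ^ 11 := by gcongr
    have h7 : (59874 : ℝ) ≤ (2.7182818283 : ℝ) ^ 11 := by norm_num
    have h8 : (59874 : ℝ) ≤ Real.exp 1 ^ 11 := h7.trans h6
    nlinarith
  calc 32 * c * K * 2 ^ K = 32 * (c * K) * 2 ^ K := by ring
    _ ≤ 32 * (1600 * Real.exp ((c + 0.25) / 20 - 2)) * Real.exp (0.69315 * c + 0.34658) := by
        gcongr
    _ = 51200 * (Real.exp ((c + 0.25) / 20 - 2) * Real.exp (0.69315 * c + 0.34658)) := by ring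
    _ = 51200 * Real.exp (0.74315 * c - 1.64092) := by
        rw [← Real.exp_add]
        congr 2
        ring
    _ < Real.exp 10.89 * Real.exp (0.74315 * c - 1.64092) := by gcongr
    _ = Real.exp (0.74315 * c + 9.24908) := by
        rw [← Real.exp_add]
        congr 1
        ring
    _ ≤ Real.exp (0.75 * c + 9.25) := by
        apply Real.exp_le_exp.2
        linarith

/-- the case of any `c` -/
theorem waring_any {c : ℝ} (hc : ∀ m : ℕ, c ≠ m) (hc1 : 1 < c) {𝓑 : Set ℕ} (h𝓑 : ExpOne 𝓑)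
    {k s : ℕ} (hk : 2 ≤ k) (hs : (3 / 2 * c + 19) * k ≤ s) :
    ∃ n0 : ℕ, ∀ n : ℕ, n0 ≤ n → ∃ (x : Fin s → ℕ) (y : ℕ), (∀ i, x i ∈ 𝓑) ∧
      n = ∑ i, x i ^ k + ⌊(y : ℝ) ^ c⌋₊ ∧ (n : ℝ) ≤ (4 * (y : ℝ)) ^ c := by
  set K : ℕ := ⌈c - 1 / 2⌉₊ with hK
  have h1 : c - 1 / 2 ≤ K := Nat.le_ceil _
  have h2 : (K : ℝ) < c - 1 / 2 + 1 := Nat.ceil_lt_add_one (by linarith)
  have h3 : 1 ≤ K := by
    have : (0 : ℝ) < K := by linarith
    exact_mod_cast this
  have h3R : (1 : ℝ) ≤ K := by exact_mod_cast h3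
  have h4 := G_gen hc hc1 K h1
  have h5 : (0 : ℝ) ≤ 1 - 1 / (32 * K * 2 ^ K) := by
    rw [sub_nonneg, div_le_one (by positivity)]
    have h6 : (1 : ℝ) ≤ 2 ^ K := one_le_pow₀ (by norm_num)
    nlinarith
  refine waring2 hc1 (C := 1) h5 one_pos ?_ h𝓑 hk ?_
  · obtain ⟨Q0, hQ0⟩ := h4
    refine ⟨Q0, fun Q hQ j ξ a b => ?_⟩
    rw [one_mul]
    exact hQ0 Q hQ j ξ a b
  · have := numeric2 hc1 (by linarith) h3 hk hs
    refine this.trans_le (le_of_eq ?_)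
    have hc0 : 0 < c := by linarith
    field_simp
    ring

/-- the case `1 < c < 2` -/
theorem waring_two {c : ℝ} (hc : ∀ m : ℕ, c ≠ m) (hc1 : 1 < c) (hc2 : c < 2) {𝓑 : Set ℕ}
    (h𝓑 : ExpOne 𝓑) {k s : ℕ} (hk : 2 ≤ k) (hs : (1 - 1 / (k : ℝ)) ^ (s / 2) < 1 / c - 1 / 2) :
    ∃ n0 : ℕ, ∀ n : ℕ, n0 ≤ n → ∃ (x : Fin s → ℕ) (y : ℕ), (∀ i, x i ∈ 𝓑) ∧
      n = ∑ i, x i ^ k + ⌊(y : ℝ) ^ c⌋₊ ∧ (n : ℝ) ≤ (4 * (y : ℝ)) ^ c := by
  obtain ⟨C, hC, h4⟩ := G_two hc hc1 hc2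
  refine waring2 hc1 (by linarith) hC h4 h𝓑 hk ?_
  refine hs.trans_le (le_of_eq ?_)
  have hc0 : 0 < c := by linarith
  field_simp

lemma one_sub_le {k : ℕ} (hk : 2 ≤ k) : (1 - 1 / (k : ℝ)) ^ k ≤ Real.exp (-1) := by
  have hkR : (2 : ℝ) ≤ k := by exact_mod_cast hk
  have h0 : 0 ≤ 1 - 1 / (k : ℝ) := by
    rw [sub_nonneg, div_le_one (by linarith)]
    linarith
  have h1 : (1 - 1 / (k : ℝ)) ≤ Real.exp (-(1 / k)) := by
    have := Real.add_one_le_exp (-(1 / (k : ℝ)))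
    linarith
  calc (1 - 1 / (k : ℝ)) ^ k ≤ Real.exp (-(1 / k)) ^ k := by gcongr
    _ = Real.exp (k * (-(1 / k))) := by rw [← Real.exp_nat_mul]
    _ = _ := by
        congr 1
        field_simp

lemma one_sub_le2 {k : ℕ} (hk : 2 ≤ k) : (1 - 1 / (k : ℝ)) ^ (2 * k - 1) ≤ Real.exp (-2) := by
  have hkR : (2 : ℝ) ≤ k := by exact_mod_cast hk
  set x : ℝ := 1 / (2 * k - 1) with hx
  have hx0 : 0 < x := by
    rw [hx]
    apply one_div_pos.2
    linarith
  have hx1 : x < 1 := by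
    rw [hx, div_lt_one (by linarith)]
    linarith
  have hs := Real.hasSum_log_sub_log_of_abs_lt_one (x := x) (by rw [abs_of_pos hx0]; exact hx1)
  have h1 : 2 * x ≤ Real.log (1 + x) - Real.log (1 - x) := by
    have h2 := le_hasSum hs 0 (fun j _ => by positivity)
    simpa using h2
  have h3 : Real.log (1 + x) - Real.log (1 - x) = -Real.log (1 - 1 / k) := by
    rw [← Real.log_div (by linarith) (by linarith), ← Real.log_inv]
    congr 1
    rw [hx]
    have h4 : (2 * (k : ℝ) - 1) ≠ 0 := by linarith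
    have h5 : (k : ℝ) - 1 ≠ 0 := by linarith
    have h6 : (2 * (k : ℝ) - 1 - 1) ≠ 0 := by
      intro h
      apply h5
      linarith
    field_simp
    ring
  have h6 : Real.log (1 - 1 / (k : ℝ)) ≤ -(2 * x) := by linarith
  have hpos : 0 < 1 - 1 / (k : ℝ) := by
    rw [sub_pos, div_lt_one (by linarith)]
    linarith
  rw [← Real.log_le_log_iff (by positivity) (Real.exp_pos _), Real.log_exp, Real.log_pow]
  have h7 : ((2 * k - 1 : ℕ) : ℝ) = 2 * k - 1 := by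
    rw [Nat.cast_sub (by omega)]
    push_cast
    ring
  rw [h7]
  have h8 : (2 * (k : ℝ) - 1) * x = 1 := by
    rw [hx]
    have h4 : (2 * (k : ℝ) - 1) ≠ 0 := by linarith
    field_simp
  nlinarith

/-- explicit numbers of summands -/
theorem explicit {c : ℝ} (hc : ∀ m : ℕ, c ≠ m) (hc1 : 1 < c) {𝓑 : Set ℕ} (h𝓑 : ExpOne 𝓑)
    {k s : ℕ} (hk : 2 ≤ k) (hs : (c ≤ 1.15 ∧ s = 2 * k) ∨ (c ≤ 1.57 ∧ s = 4 * k - 1) ∨
      (c ≤ 53 ∧ s = 100 * k - 1)) :
    ∃ n0 : ℕ, ∀ n : ℕ, n0 ≤ n → ∃ (x : Fin s → ℕ) (y : ℕ), (∀ i, x i ∈ 𝓑) ∧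
      n = ∑ i, x i ^ k + ⌊(y : ℝ) ^ c⌋₊ ∧ (n : ℝ) ≤ (4 * (y : ℝ)) ^ c := by
  have hkR : (2 : ℝ) ≤ k := by exact_mod_cast hk
  have hc0 : 0 < c := by linarith
  have he := Real.exp_one_gt_d9
  have he0 : 0 < Real.exp 1 := Real.exp_pos 1
  rcases hs with ⟨h1, h2⟩ | ⟨h1, h2⟩ | ⟨h1, h2⟩
  · refine waring_two hc hc1 (by linarith) h𝓑 hk ?_
    have e1 : s / 2 = k := by omega
    rw [e1]
    refine (one_sub_le hk).trans_lt ?_
    have e2 : Real.exp (-1) < 0.3679 := by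
      rw [Real.exp_neg, inv_lt_comm₀ he0 (by norm_num)]
      refine lt_of_lt_of_le ?_ he.le
      norm_num
    have e3 : (0.3679 : ℝ) ≤ 1 / c - 1 / 2 := by
      rw [le_sub_iff_add_le, le_div_iff₀ hc0]
      linarith
    linarith
  · refine waring_two hc hc1 (by linarith) h𝓑 hk ?_
    have e1 : s / 2 = 2 * k - 1 := by omega
    rw [e1]
    refine (one_sub_le2 hk).trans_lt ?_
    have e2 : Real.exp (-2) < 0.1354 := by
      have e4 : Real.exp (-2) = (Real.exp 1 * Real.exp 1)⁻¹ := by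
        rw [← Real.exp_add, ← Real.exp_neg]
        norm_num
      rw [e4, inv_lt_comm₀ (by positivity) (by norm_num)]
      refine lt_of_lt_of_le ?_ (mul_le_mul he.le he.le (by norm_num) he0.le)
      norm_num
    have e3 : (0.1354 : ℝ) ≤ 1 / c - 1 / 2 := by
      rw [le_sub_iff_add_le, le_div_iff₀ hc0]
      linarith
    linarith
  · refine waring_any hc hc1 h𝓑 hk ?_
    have e1 : s + 1 = 100 * k := by omega
    have e2 : (s : ℝ) + 1 = 100 * k := by exact_mod_cast e1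
    nlinarith

end Pool.Agent.H24.PS
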